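import Pool.Agent.X84.Hs.Core

/-!
# Two disjoint invariant rays which end at an attracting fixed point
-/

open Set Metric TopologicalSpace Filter Topology

set_option autoImplicit false
set_option linter.unusedSectionVars false

noncomputable section

namespace Pool.Agent.X84.Hs

variable {X : Type*} [MetricSpace X] [CompactSpace X]

/-- the backward orbit of a set -/
def Bk (g : X → X) (E : Set X) : Set X := ⋃ n : ℕ, {x | g^[n] x ∈ E}

/-- the forward orbit of a set -/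
def Fw (g : X → X) (E : Set X) : Set X := ⋃ n : ℕ, g^[n] '' E

theorem mem_Bk {g : X → X} {E : Set X} {x : X} : x ∈ Bk g E ↔ ∃ n, g^[n] x ∈ E := by
  simp [Bk]

theorem mem_Fw {g : X → X} {E : Set X} {x : X} : x ∈ Fw g E ↔ ∃ n, ∃ e ∈ E, g^[n] e = x := by
  simp [Fw]

theorem sub_Bk (g : X → X) (E : Set X) : E ⊆ Bk g E := fun x hx => mem_Bk.2 ⟨0, hx⟩

theorem sub_Fw (g : X → X) (E : Set X) : E ⊆ Fw g E := fun x hx => mem_Fw.2 ⟨0, x, hx, rfl⟩

theorem orb_inv (g : X ≃ₜ X) (E : Set X) (x : X) :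
    g x ∈ Bk g E ∪ Fw g E ↔ x ∈ Bk g E ∪ Fw g E := by
  constructor
  · rintro (h | h)
    · obtain ⟨n, hn⟩ := mem_Bk.1 h
      exact Or.inl (mem_Bk.2 ⟨n + 1, by rwa [Function.iterate_succ_apply]⟩)
    · obtain ⟨n, e, he, hx⟩ := mem_Fw.1 h
      rcases n with _ | n
      · exact Or.inl (mem_Bk.2 ⟨1, by
          change e = g x at hx
          rw [Function.iterate_one, ← hx]
          exact he⟩)
      · rw [Function.iterate_succ_apply'] at hx
        exact Or.inr (mem_Fw.2 ⟨n, e, he, g.injective hx⟩)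
  · rintro (h | h)
    · obtain ⟨n, hn⟩ := mem_Bk.1 h
      rcases n with _ | n
      · exact Or.inr (mem_Fw.2 ⟨1, x, hn, rfl⟩)
      · exact Or.inl (mem_Bk.2 ⟨n, by rwa [Function.iterate_succ_apply] at hn⟩)
    · obtain ⟨n, e, he, hx⟩ := mem_Fw.1 h
      exact Or.inr (mem_Fw.2 ⟨n + 1, e, he, by rw [Function.iterate_succ_apply', hx]⟩)

/-- `g^n(B) ⊆ B` -/
theorem iterB {g : X → X} {B : Set X} (h : ∀ x ∈ B, g x ∈ B) : ∀ n, ∀ x ∈ B, g^[n] x ∈ B := by
  intro n
  induction n with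
  | zero => exact fun x hx => hx
  | succ n ih =>
    intro x hx
    rw [Function.iterate_succ_apply']
    exact h _ (ih x hx)

/-- the data of an arc in a fundamental domain -/
structure ArcData (g : X ≃ₜ X) (B X₀ E : Set X) : Prop where
  cpt : IsCompact E
  con : IsConnected E
  sub : E ⊆ X₀
  nxt : ∃ x ∈ E, g x ∈ E
  out : ∀ x ∈ E, g x ∉ B
  ent : ∃ n, ∀ x ∈ E, g^[n] x ∈ B

variable {g : X ≃ₜ X} {B X₀ E : Set X} {q : X}

theorem closure_Bk (hgB : g '' B ⊆ interior B) (hE : IsClosed E) (hout : ∀ x ∈ E, g x ∉ B)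
    {x : X} (hx : x ∈ closure (Bk g E)) {k : ℕ} (hk : g^[k] x ∈ B) : x ∈ Bk g E := by
  have hst : ∀ x ∈ B, g x ∈ B := fun x hx => interior_subset (hgB ⟨x, hx, rfl⟩)
  have hEB : ∀ x ∈ E, x ∉ B := fun x hx hB => hout x hx (hst x hB)
  have hU : {y | g^[k + 1] y ∈ interior B} ∈ 𝓝 x := by
    refine (isOpen_interior.preimage (g.continuous.iterate (k + 1))).mem_nhds ?_
    show g^[k + 1] x ∈ interior B
    rw [Function.iterate_succ_apply']
    exact hgB ⟨_, hk, rfl⟩
  have h1 : x ∈ closure (⋃ n ∈ Finset.range (k + 1), {y | g^[n] y ∈ E}) := by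
    rw [mem_closure_iff_nhds] at hx ⊢
    intro t ht
    obtain ⟨y, ⟨hyt, hyU⟩, hy⟩ := hx _ (inter_mem ht hU)
    obtain ⟨n, hn⟩ := mem_Bk.1 hy
    refine ⟨y, hyt, mem_biUnion (Finset.mem_coe.2 (Finset.mem_range.2 ?_)) hn⟩
    by_contra h2
    push Not at h2
    have h3 := iterB hst (n - (k + 1)) _ (interior_subset hyU)
    rw [← Function.iterate_add_apply, Nat.sub_add_cancel h2] at h3
    exact hEB _ hn h3
  have h2 : IsClosed (⋃ n ∈ Finset.range (k + 1), {y | g^[n] y ∈ E}) :=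
    isClosed_biUnion_finset fun n _ => hE.preimage (g.continuous.iterate n)
  rw [h2.closure_eq, mem_iUnion₂] at h1
  obtain ⟨n, _, hn⟩ := h1
  exact mem_Bk.2 ⟨n, hn⟩

theorem closure_Fw (hst : ∀ x ∈ B, g x ∈ B) (hlim : ∀ δ > 0, ∃ n, ∀ x ∈ B, dist (g^[n] x) q < δ)
    (hE : IsCompact E) (hent : ∃ n, ∀ x ∈ E, g^[n] x ∈ B) {x : X} (hx : x ∈ closure (Fw g E))
    (hxq : x ≠ q) : x ∈ Fw g E := by
  obtain ⟨n₀, hn₀⟩ := hent
  have hd : 0 < dist x q / 2 := by
    have := dist_pos.2 hxq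
    positivity
  obtain ⟨n₁, hn₁⟩ := hlim _ hd
  have h1 : x ∈ closure (⋃ n ∈ Finset.range (n₁ + n₀), g^[n] '' E) := by
    rw [Metric.mem_closure_iff] at hx ⊢
    intro ε hε
    obtain ⟨y, hy, hxy⟩ := hx (min ε (dist x q / 2)) (lt_min hε hd)
    refine ⟨y, ?_, hxy.trans_le (min_le_left _ _)⟩
    obtain ⟨n, e, he, rfl⟩ := mem_Fw.1 hy
    refine mem_biUnion (Finset.mem_coe.2 (Finset.mem_range.2 ?_)) ⟨e, he, rfl⟩
    by_contra h2
    push Not at h2
    have h3 : g^[n] e = g^[n₁] (g^[n - n₁ - n₀] (g^[n₀] e)) := by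
      rw [← Function.iterate_add_apply, ← Function.iterate_add_apply]
      congr 1
      omega
    have h4 := hn₁ _ (iterB hst (n - n₁ - n₀) _ (hn₀ e he))
    rw [← h3] at h4
    have h5 := hxy.trans_le (min_le_right _ _)
    have h6 := dist_triangle x (g^[n] e) q
    linarith
  have h2 : IsClosed (⋃ n ∈ Finset.range (n₁ + n₀), g^[n] '' E) :=
    isClosed_biUnion_finset fun n _ => (hE.image (g.continuous.iterate n)).isClosed
  rw [h2.closure_eq, mem_iUnion₂] at h1
  obtain ⟨n, _, e, he, hn⟩ := h1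
  exact mem_Fw.2 ⟨n, e, he, hn⟩

theorem con_Bk (h : ArcData g B X₀ E) : IsConnected (Bk g E) := by
  obtain ⟨x, hx, hgx⟩ := h.nxt
  refine ⟨⟨x, sub_Bk g E hx⟩, ?_⟩
  have hpre : ∀ n : ℕ, {x | g^[n] x ∈ E} = g.symm^[n] '' E := by
    intro n
    ext y
    constructor
    · intro hy
      exact ⟨_, hy, (Function.LeftInverse.iterate g.symm_apply_apply n) y⟩
    · rintro ⟨z, hz, rfl⟩
      show g^[n] (g.symm^[n] z) ∈ E
      rw [(Function.LeftInverse.iterate g.apply_symm_apply n) z]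
      exact hz
  refine IsPreconnected.iUnion_of_chain (fun n => ?_) (fun n => ?_)
  · rw [hpre]
    exact h.con.isPreconnected.image _ (g.symm.continuous.iterate n).continuousOn
  · refine ⟨g.symm^[n] x, ?_, ?_⟩
    · show g^[n] (g.symm^[n] x) ∈ E
      rw [(Function.LeftInverse.iterate g.apply_symm_apply n) x]
      exact hx
    · show g^[Order.succ n] (g.symm^[n] x) ∈ E
      rw [Nat.succ_eq_succ, Nat.succ_eq_add_one, Function.iterate_succ_apply',
        (Function.LeftInverse.iterate g.apply_symm_apply n) x]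
      exact hgx

theorem con_Fw (h : ArcData g B X₀ E) : IsConnected (Fw g E) := by
  obtain ⟨x, hx, hgx⟩ := h.nxt
  refine ⟨⟨x, sub_Fw g E hx⟩, ?_⟩
  refine IsPreconnected.iUnion_of_chain (fun n => ?_) (fun n => ?_)
  · exact h.con.isPreconnected.image _ (g.continuous.iterate n).continuousOn
  · refine ⟨g^[n] (g x), ⟨_, hgx, rfl⟩, ⟨x, hx, ?_⟩⟩
    rw [Nat.succ_eq_succ, Nat.succ_eq_add_one, Function.iterate_succ_apply]

/-- the past of an arc accumulates at the complement of the basin -/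
theorem Bk_meets (hgB : g '' B ⊆ interior B) (hX₀ : IsClosed X₀) (hgX : ∀ x, g x ∈ X₀ ↔ x ∈ X₀)
    (h : ArcData g B X₀ E) : ∃ a ∈ closure (Bk g E), a ∈ X₀ ∧ ∀ n, g^[n] a ∉ B := by
  obtain ⟨x, hx⟩ := h.con.nonempty
  have hst : ∀ x ∈ B, g x ∈ B := fun x hx => interior_subset (hgB ⟨x, hx, rfl⟩)
  have hxB : x ∉ B := fun hB => h.out x hx (hst x hB)
  have hinv : ∀ n y, g^[n] (g.symm^[n] y) = y :=
    fun n => Function.LeftInverse.iterate g.apply_symm_apply n
  have hXn : ∀ n y, g^[n] y ∈ X₀ ↔ y ∈ X₀ := by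
    intro n
    induction n with
    | zero => exact fun y => Iff.rfl
    | succ n ih =>
      intro y
      rw [Function.iterate_succ_apply', hgX, ih]
  obtain ⟨a, φ, hφ, ha⟩ := CompactSpace.tendsto_subseq fun n => g.symm^[n] x
  have hBk : ∀ n, g.symm^[n] x ∈ Bk g E := fun n => mem_Bk.2 ⟨n, by rw [hinv]; exact hx⟩
  have hX : ∀ n, g.symm^[n] x ∈ X₀ := fun n => by
    rw [← hXn n, hinv]
    exact h.sub hx
  refine ⟨a, mem_closure_of_tendsto ha (Eventually.of_forall fun k => hBk (φ k)),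
    hX₀.mem_of_tendsto ha (Eventually.of_forall fun k => hX (φ k)), fun n hn => ?_⟩
  have h3 : g^[n + 1] a ∈ interior B := by
    rw [Function.iterate_succ_apply']
    exact hgB ⟨_, hn, rfl⟩
  have h4 : ∀ᶠ k in atTop, g^[n + 1] (g.symm^[φ k] x) ∈ interior B :=
    (((g.continuous.iterate (n + 1)).tendsto a).comp ha).eventually (isOpen_interior.mem_nhds h3)
  obtain ⟨k, hk1, hk2⟩ := (h4.and (eventually_ge_atTop (n + 1))).exists
  have hk3 : n + 1 ≤ φ k := hk2.trans (hφ.id_le k)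
  have h5 := iterB hst (φ k - (n + 1)) _ (interior_subset hk1)
  rw [← Function.iterate_add_apply, Nat.sub_add_cancel hk3, hinv] at h5
  exact hxB h5

theorem q_mem_Fw (hst : ∀ x ∈ B, g x ∈ B)
    (hlim : ∀ δ > 0, ∃ n, ∀ x ∈ B, dist (g^[n] x) q < δ) (h : ArcData g B X₀ E) :
    q ∈ closure (Fw g E) := by
  obtain ⟨x, hx⟩ := h.con.nonempty
  obtain ⟨n₀, hn₀⟩ := h.ent
  rw [Metric.mem_closure_iff]
  intro ε hε
  obtain ⟨n, hn⟩ := hlim ε hε
  refine ⟨g^[n] (g^[n₀] x), mem_Fw.2 ⟨n + n₀, x, hx, by rw [Function.iterate_add_apply]⟩, ?_⟩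
  rw [dist_comm]
  exact hn _ (hn₀ x hx)

theorem not_shadowing_arcs {E₁ E₂ : Set X} (hB : IsClosed B) (hgB : g '' B ⊆ interior B)
    (hq : q ∈ B) (hgq : g q = q) (hlim : ∀ δ > 0, ∃ n, ∀ x ∈ B, dist (g^[n] x) q < δ)
    (hX₀ : IsClosed X₀) (hgX : ∀ x, g x ∈ X₀ ↔ x ∈ X₀)
    (hΛ : IsConnected {x | x ∈ X₀ ∧ ∀ n, g^[n] x ∉ B})
    (h1 : ArcData g B X₀ E₁) (h2 : ArcData g B X₀ E₂)
    (hd1 : ∀ n, ∀ x ∈ E₁, g^[n] x ∉ E₂) (hd2 : ∀ n, ∀ x ∈ E₂, g^[n] x ∉ E₁) :
    ¬ Shadowing (induced g g.continuous) := by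
  have hst : ∀ x ∈ B, g x ∈ B := fun x hx => interior_subset (hgB ⟨x, hx, rfl⟩)
  set Λ : Set X := {x | x ∈ X₀ ∧ ∀ n, g^[n] x ∉ B} with hΛd
  have hΛc : IsClosed Λ := by
    have : Λ = X₀ ∩ ⋂ n : ℕ, {x | g^[n] x ∉ interior B} := by
      ext x
      simp only [hΛd, mem_ofPred_eq, mem_inter_iff, mem_iInter]
      refine and_congr_right fun _ => ⟨fun h n hn => h n (interior_subset hn), fun h n hn => ?_⟩
      refine h (n + 1) ?_
      rw [Function.iterate_succ_apply']
      exact hgB ⟨_, hn, rfl⟩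
    rw [this]
    exact hX₀.inter (isClosed_iInter fun n =>
      (isOpen_interior.preimage (g.continuous.iterate n)).isClosed_compl)
  have hΛi : ∀ x, g x ∈ Λ ↔ x ∈ Λ := by
    intro x
    simp only [hΛd, mem_ofPred_eq, hgX]
    refine and_congr_right fun _ => ⟨fun h n hn => ?_, fun h n hn => ?_⟩
    · refine h n ?_
      rw [← Function.iterate_succ_apply, Function.iterate_succ_apply']
      exact hst _ hn
    · refine h (n + 1) ?_
      rwa [Function.iterate_succ_apply]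
  have hcli : ∀ S : Set X, (∀ x, g x ∈ S ↔ x ∈ S) → ∀ x, g x ∈ closure S ↔ x ∈ closure S := by
    intro S hS x
    have h3 : g ⁻¹' S = S := by
      ext y
      exact hS y
    have h4 : g ⁻¹' (closure S) = closure S := by
      rw [g.preimage_closure, h3]
    exact (Set.ext_iff.1 h4 x)
  have hXF : ∀ E, E ⊆ X₀ → Fw g E ⊆ X₀ ∧ Bk g E ⊆ X₀ := by
    intro E hE
    have hXn : ∀ n y, g^[n] y ∈ X₀ ↔ y ∈ X₀ := by
      intro n
      induction n with
      | zero => exact fun y => Iff.rfl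
      | succ n ih =>
        intro y
        rw [Function.iterate_succ_apply', hgX, ih]
    constructor
    · intro x hx
      obtain ⟨n, e, he, rfl⟩ := mem_Fw.1 hx
      exact (hXn n e).2 (hE he)
    · intro x hx
      obtain ⟨n, hn⟩ := mem_Bk.1 hx
      exact (hXn n x).1 (hE hn)
  set R : Set X := closure (Bk g E₂ ∪ Fw g E₂) with hR
  have hRc : IsConnected R := by
    obtain ⟨x, hx⟩ := h2.con.nonempty
    exact (IsConnected.union ⟨x, sub_Bk g _ hx, sub_Fw g _ hx⟩ (con_Bk h2) (con_Fw h2)).closure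
  have hqR : q ∈ R := closure_mono subset_union_right (q_mem_Fw hst hlim h2)
  obtain ⟨a₂, ha₂, ha₂X, ha₂n⟩ := Bk_meets hgB hX₀ hgX h2
  obtain ⟨a₁, ha₁, ha₁X, ha₁n⟩ := Bk_meets hgB hX₀ hgX h1
  have hΓ2c : IsConnected (Λ ∪ R) :=
    IsConnected.union ⟨a₂, ⟨ha₂X, ha₂n⟩, closure_mono subset_union_left ha₂⟩ hΛ hRc
  have hmemW : ∀ E, ArcData g B X₀ E → ∀ x ∈ closure (Bk g E ∪ Fw g E), g x ∈ B → x ≠ q →
      x ∈ Bk g E ∪ Fw g E := by
    intro E hE x hx hgx hxq
    rw [closure_union] at hx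
    rcases hx with hx | hx
    · exact Or.inl (closure_Bk hgB hE.cpt.isClosed hE.out hx (k := 1) hgx)
    · exact Or.inr (closure_Fw hst hlim hE.cpt hE.ent hx hxq)
  refine not_shadowing g (B := B) (Γ₁ := closure (Bk g E₁ ∪ Fw g E₁)) (Γ₂ := Λ ∪ R)
    (P := closure (Bk g E₁)) (F := closure (Fw g E₁)) (q := q) hB hgB hq hgq hlim isClosed_closure
    (hΛc.union isClosed_closure) (hcli _ (orb_inv g E₁)) ?_ (Or.inr hqR) ?_ isClosed_closure
    closure_union.symm ?_ ?_ ?_ isClosed_closure ?_ ?_ ?_ ?_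
  · intro x
    exact or_congr (hΛi x) (hcli _ (orb_inv g E₂) x)
  · intro x hx1 hx2 hgx
    by_contra hxq
    have hx1' := hmemW E₁ h1 x hx1 hgx hxq
    rcases hx2 with hx2 | hx2
    · exact hx2.2 1 hgx
    · have hx2' := hmemW E₂ h2 x hx2 hgx hxq
      rcases hx1' with h3 | h3 <;> rcases hx2' with h4 | h4
      · obtain ⟨a, ha⟩ := mem_Bk.1 h3
        obtain ⟨b, hb⟩ := mem_Bk.1 h4
        rcases le_total a b with hab | hab
        · refine hd1 (b - a) _ ha ?_
          rwa [← Function.iterate_add_apply, Nat.sub_add_cancel hab]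
        · refine hd2 (a - b) _ hb ?_
          rwa [← Function.iterate_add_apply, Nat.sub_add_cancel hab]
      · obtain ⟨a, ha⟩ := mem_Bk.1 h3
        obtain ⟨b, e, he, rfl⟩ := mem_Fw.1 h4
        rw [← Function.iterate_add_apply] at ha
        exact hd2 _ _ he ha
      · obtain ⟨a, e, he, rfl⟩ := mem_Fw.1 h3
        obtain ⟨b, hb⟩ := mem_Bk.1 h4
        rw [← Function.iterate_add_apply] at hb
        exact hd1 _ _ he hb
      · obtain ⟨a, e, he, rfl⟩ := mem_Fw.1 h3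
        obtain ⟨b, e', he', hee⟩ := mem_Fw.1 h4
        rcases le_total a b with hab | hab
        · have h5 : g^[b] e' = g^[a] (g^[b - a] e') := by
            rw [← Function.iterate_add_apply]
            congr 1
            omega
          rw [h5] at hee
          have h6 := (g.injective.iterate a) hee
          refine hd2 (b - a) _ he' ?_
          rw [h6]
          exact he
        · have h5 : g^[a] e = g^[b] (g^[a - b] e) := by
            rw [← Function.iterate_add_apply]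
            congr 1
            omega
          rw [h5] at hee
          have h6 := (g.injective.iterate b) hee
          refine hd1 (a - b) _ he ?_
          rw [← h6]
          exact he'
  · intro x hx
    refine map_mem_closure g.continuous hx fun y hy => ?_
    obtain ⟨n, e, he, rfl⟩ := mem_Fw.1 hy
    exact mem_Fw.2 ⟨n + 1, e, he, Function.iterate_succ_apply' _ _ _⟩
  · intro x hx hgx
    obtain ⟨n, hn⟩ := mem_Bk.1 (closure_Bk hgB h1.cpt.isClosed h1.out hx (k := 1) hgx)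
    refine h1.out _ hn ?_
    rw [← Function.iterate_succ_apply' g, Function.iterate_succ_apply]
    exact iterB hst n _ hgx
  · obtain ⟨n, hn⟩ := h1.ent
    refine ⟨n, fun x hx => ?_⟩
    have h3 : g^[n] x ∈ closure B := by
      refine map_mem_closure (g.continuous.iterate n) hx fun y hy => ?_
      obtain ⟨m, e, he, rfl⟩ := mem_Fw.1 hy
      show g^[n] (g^[m] e) ∈ B
      rw [← Function.iterate_add_apply, Nat.add_comm, Function.iterate_add_apply]
      exact iterB hst m _ (hn e he)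
    rwa [hB.closure_eq] at h3
  · exact IsConnected.union ⟨a₁, Or.inl ⟨ha₁X, ha₁n⟩, ha₁⟩ hΓ2c (con_Bk h1).closure
  · exact IsConnected.union ⟨q, Or.inr hqR, q_mem_Fw hst hlim h1⟩ hΓ2c (con_Fw h1).closure
  · intro x hx hn
    refine Or.inl ⟨?_, hn⟩
    have h3 : closure (Bk g E₁ ∪ Fw g E₁) ⊆ X₀ :=
      hX₀.closure_subset_iff.2 (union_subset (hXF _ h1.sub).2 (hXF _ h1.sub).1)
    exact h3 hx
  · obtain ⟨x, hx⟩ := h1.con.nonempty
    obtain ⟨n₀, hn₀⟩ := h1.ent
    have hex : ∃ n, g^[n] x ∈ B := ⟨n₀, hn₀ x hx⟩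
    classical
    have hn1 := Nat.find_spec hex
    have hn2 : ∀ m < Nat.find hex, g^[m] x ∉ B := fun m hm => Nat.find_min hex hm
    set n := Nat.find hex with hn
    have hxB : x ∉ B := fun h => h1.out x hx (hst x h)
    have hpos : n ≠ 0 := by
      intro h0
      rw [h0] at hn1
      exact hxB hn1
    refine ⟨g^[n] x, subset_closure (Or.inr (mem_Fw.2 ⟨n, x, hx, rfl⟩)), hn1, ?_⟩
    rintro ⟨w, hw, hwx⟩
    obtain ⟨m, hm⟩ : ∃ m, n = m + 1 := ⟨n - 1, by omega⟩
    rw [hm, Function.iterate_succ_apply'] at hwx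
    have := g.injective hwx
    rw [this] at hw
    exact hn2 m (by omega) (interior_subset hw)

end Pool.Agent.X84.Hs
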