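import Pool.Agent.X84.Hs.OneD

/-!
# The complement of the basin of an attracting fixed point is connected
-/

open Set Metric Filter Topology

set_option autoImplicit false
set_option linter.unusedSectionVars false

noncomputable section

namespace Pool.Agent.X84.Hs

/-- a decreasing intersection of continua is connected -/
theorem nested_connected {X : Type*} [TopologicalSpace X] [CompactSpace X] [T2Space X]
    {K : ℕ → Set X} (hK : ∀ n, IsClosed (K n)) (hc : ∀ n, IsConnected (K n))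
    (hd : ∀ n, K (n + 1) ⊆ K n) : IsConnected (⋂ n, K n) := by
  have hanti : ∀ m n, m ≤ n → K n ⊆ K m := by
    intro m n hmn
    induction hmn with
    | refl => exact subset_rfl
    | step _ ih => exact (hd _).trans ih
  refine ⟨IsCompact.nonempty_iInter_of_sequence_nonempty_isCompact_isClosed K hd
    (fun n => (hc n).nonempty) (hK 0).isCompact hK, ?_⟩
  rw [isPreconnected_closed_iff]
  intro T T' hT hT' hcov hne hne'
  by_contra hno
  have hI : IsClosed (⋂ n, K n) := isClosed_iInter hK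
  have hdis : Disjoint ((⋂ n, K n) ∩ T) ((⋂ n, K n) ∩ T') := by
    rw [Set.disjoint_left]
    rintro z ⟨h1, h2⟩ ⟨_, h3⟩
    exact hno ⟨z, h1, h2, h3⟩
  obtain ⟨U, V, hU, hV, hTU, hTV, hUV⟩ :=
    normal_separation (hI.inter hT) (hI.inter hT') hdis
  have hex : ∃ n, K n ⊆ U ∪ V := by
    by_contra hcon
    push Not at hcon
    obtain ⟨z, hz⟩ := IsCompact.nonempty_iInter_of_sequence_nonempty_isCompact_isClosed
      (fun n => K n \ (U ∪ V)) (fun n => sdiff_subset_sdiff_left (hd n))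
      (fun n => by
        obtain ⟨x, hx, hxn⟩ := not_subset.1 (hcon n)
        exact ⟨x, hx, hxn⟩) ((hK 0).sdiff (hU.union hV)).isCompact
      (fun n => (hK n).sdiff (hU.union hV))
    rw [mem_iInter] at hz
    have hzI : z ∈ ⋂ n, K n := mem_iInter.2 fun n => (hz n).1
    rcases hcov hzI with h1 | h1
    · exact (hz 0).2 (Or.inl (hTU ⟨hzI, h1⟩))
    · exact (hz 0).2 (Or.inr (hTV ⟨hzI, h1⟩))
  obtain ⟨n, hn⟩ := hex
  obtain ⟨x, hx, hxT⟩ := hne
  obtain ⟨y, hy, hyT⟩ := hne'
  obtain ⟨z, _, hz1, hz2⟩ := (hc n).isPreconnected U V hU hV hn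
    ⟨x, mem_iInter.1 hx n, hTU ⟨hx, hxT⟩⟩ ⟨y, mem_iInter.1 hy n, hTV ⟨hy, hyT⟩⟩
  exact Set.disjoint_left.1 hUV hz1 hz2

variable {n : ℕ} {M : Type*} [TopologicalSpace M] [T2Space M] [CompactSpace M]
  [ChartedSpace (EuclideanSpace ℝ (Fin n)) M]

/-- the image of a closed ball under a chart lies in a clopen connected set which it meets -/
theorem ball_sub {X₀ : Set M} (hXcl : IsClosed X₀) (hXo : IsOpen X₀)
    (e : OpenPartialHomeomorph M (EuclideanSpace ℝ (Fin n))) {q : M} (hq : q ∈ X₀) (hqe : q ∈ e.source) {r : ℝ}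
    (hr : 0 < r) (hsub : closedBall (e q) r ⊆ e.target) : e.symm '' closedBall (e q) r ⊆ X₀ := by
  have h1 : IsPreconnected (e.symm '' closedBall (e q) r) :=
    (convex_closedBall (e q) r).isPreconnected.image _ (e.symm.continuousOn.mono hsub)
  refine h1.subset_isClopen ⟨hXcl, hXo⟩ ⟨q, ⟨e q, by simp [hr.le], e.left_inv hqe⟩, hq⟩

theorem dim_ge_two (hn : 2 ≤ n) {X₀ : Set M} (hX : IsConnected X₀) (hXcl : IsClosed X₀)
    (hXo : IsOpen X₀) (e : OpenPartialHomeomorph M (EuclideanSpace ℝ (Fin n))) {q : M} (hq : q ∈ X₀)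
    (hqe : q ∈ e.source) {r : ℝ} (hr : 0 < r) (hsub : closedBall (e q) r ⊆ e.target) :
    IsPreconnected (X₀ \ e.symm '' ball (e q) r) := by
  have hBX := ball_sub hXcl hXo e hq hqe hr hsub
  have hO : IsOpen (e.symm '' ball (e q) r) :=
    e.isOpen_image_symm_of_subset_target isOpen_ball (ball_subset_closedBall.trans hsub)
  have hBc : IsClosed (e.symm '' closedBall (e q) r) :=
    ((isCompact_closedBall _ _).image_of_continuousOn (e.symm.continuousOn.mono hsub)).isClosed
  set K := X₀ \ e.symm '' ball (e q) r with hK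
  have hKc : IsClosed K := hXcl.sdiff hO
  set S := e.symm '' sphere (e q) r with hS
  have hrank : 1 < Module.rank ℝ (EuclideanSpace ℝ (Fin n)) := by
    rw [rank_eq_card_basis (PiLp.basisFun 2 ℝ (Fin n)), Fintype.card_fin]
    exact_mod_cast hn
  have hSp : IsPreconnected S := (isPreconnected_sphere hrank (e q) r).image _
    (e.symm.continuousOn.mono (sphere_subset_closedBall.trans hsub))
  have hSK : S ⊆ K := by
    rintro _ ⟨y, hy, rfl⟩
    refine ⟨hBX ⟨y, sphere_subset_closedBall hy, rfl⟩, ?_⟩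
    rintro ⟨z, hz, he⟩
    have h1 := e.symm.injOn (hsub (ball_subset_closedBall hz))
      (hsub (sphere_subset_closedBall hy)) he
    rw [h1] at hz
    rw [mem_sphere] at hy
    rw [mem_ball, hy] at hz
    exact lt_irrefl _ hz
  have hend : ∀ z ∈ K, z ∈ e.symm '' closedBall (e q) r → z ∈ S := by
    rintro z hz ⟨y, hy, rfl⟩
    refine ⟨y, ?_, rfl⟩
    rw [mem_sphere]
    refine le_antisymm hy ?_
    by_contra h
    push Not at h
    exact hz.2 ⟨y, h, rfl⟩
  have key : ∀ T T' : Set M, IsClosed T → IsClosed T' → K ⊆ T ∪ T' → (K ∩ T).Nonempty →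
      (K ∩ T').Nonempty → S ∩ T' = ∅ → (K ∩ (T ∩ T')).Nonempty := by
    intro T T' hT hT' hcov ⟨x, hxK, hxT⟩ ⟨y, hyK, hyT'⟩ hST
    obtain ⟨z, hzX, hz1, hz2⟩ := (isPreconnected_closed_iff.1 hX.isPreconnected)
      (K ∩ T ∪ e.symm '' closedBall (e q) r) (K ∩ T') ((hKc.inter hT).union hBc)
      (hKc.inter hT') (by
        intro z hz
        by_cases hz' : z ∈ e.symm '' ball (e q) r
        · exact Or.inl (Or.inr (image_mono ball_subset_closedBall hz'))
        · rcases hcov ⟨hz, hz'⟩ with h3 | h3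
          · exact Or.inl (Or.inl ⟨⟨hz, hz'⟩, h3⟩)
          · exact Or.inr ⟨⟨hz, hz'⟩, h3⟩) ⟨x, hxK.1, Or.inl ⟨hxK, hxT⟩⟩ ⟨y, hyK.1, hyK, hyT'⟩
    rcases hz1 with hz1 | hz1
    · exact ⟨z, hz1.1, hz1.2, hz2.2⟩
    · have h3 : z ∈ S ∩ T' := ⟨hend z hz2.1 hz1, hz2.2⟩
      rw [hST] at h3
      exact h3.elim
  rw [isPreconnected_closed_iff]
  intro T T' hT hT' hcov hne hne'
  by_cases h1 : S ∩ T' = ∅
  · exact key T T' hT hT' hcov hne hne' h1
  · by_cases h2 : S ∩ T = ∅
    · have := key T' T hT' hT (by rwa [union_comm]) hne' hne h2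
      rwa [inter_comm T' T] at this
    · obtain ⟨z, hz, hz1⟩ := (isPreconnected_closed_iff.1 hSp) T T' hT hT' (hSK.trans hcov)
        (nonempty_iff_ne_empty.2 h2) (nonempty_iff_ne_empty.2 h1)
      exact ⟨z, hSK hz, hz1⟩

/-- arcs in one-dimensional charts -/
theorem arc_chart {M : Type*} [TopologicalSpace M] [T2Space M] {X₀ : Set M} (hXcl : IsClosed X₀)
    (hXo : IsOpen X₀) (e : OpenPartialHomeomorph M (EuclideanSpace ℝ (Fin 1))) {q : M} (hq : q ∈ X₀)
    (hqe : q ∈ e.source) {r : ℝ} (hr : 0 < r) (hsub : closedBall (e q) r ⊆ e.target) :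
    ∃ γ, IsArc X₀ γ ∧ γ '' Ioo (-1) 1 = e.symm '' ball (e q) r := by
  have hBX : e.symm '' closedBall (e q) r ⊆ X₀ := by
    have h1 : IsPreconnected (e.symm '' closedBall (e q) r) :=
      (convex_closedBall (e q) r).isPreconnected.image _ (e.symm.continuousOn.mono hsub)
    exact h1.subset_isClopen ⟨hXcl, hXo⟩ ⟨q, ⟨e q, by simp [hr.le], e.left_inv hqe⟩, hq⟩
  set u : EuclideanSpace ℝ (Fin 1) := EuclideanSpace.single 0 1 with hu
  have hun : ‖u‖ = 1 := by simp [hu]
  have hu0 : u ≠ 0 := by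
    intro h
    rw [h, norm_zero] at hun
    exact zero_ne_one hun
  have hvu : ∀ v : EuclideanSpace ℝ (Fin 1), v = v 0 • u := by
    intro v
    ext i
    fin_cases i
    simp [hu]
  set ψ : ℝ → EuclideanSpace ℝ (Fin 1) := fun t => e q + (t * r) • u with hψ
  have hψc : Continuous ψ :=
    continuous_const.add ((continuous_id.mul continuous_const).smul continuous_const)
  have hψd : ∀ t, dist (ψ t) (e q) = |t| * r := by
    intro t
    rw [dist_eq_norm, hψ]
    simp only [add_sub_cancel_left, norm_smul, hun, mul_one, Real.norm_eq_abs, abs_mul,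
      abs_of_pos hr]
  have hψi : ∀ s t, ψ s = ψ t → s = t := by
    intro s t h
    have h1 : (s * r) • u = (t * r) • u := add_left_cancel h
    have h2 := smul_left_injective ℝ hu0 h1
    exact mul_right_cancel₀ hr.ne' h2
  have hψcl : ∀ t ∈ Icc (-1 : ℝ) 1, ψ t ∈ closedBall (e q) r := by
    intro t ht
    rw [mem_closedBall, hψd]
    have : |t| ≤ 1 := abs_le.2 ⟨ht.1, ht.2⟩
    nlinarith
  have himg : ψ '' Ioo (-1) 1 = ball (e q) r := by
    ext y
    constructor
    · rintro ⟨t, ht, rfl⟩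
      rw [mem_ball, hψd]
      have : |t| < 1 := abs_lt.2 ⟨ht.1, ht.2⟩
      nlinarith
    · intro hy
      set v := y - e q with hv
      have hvn : ‖v‖ < r := by rwa [mem_ball, dist_eq_norm] at hy
      have h1 : ‖v‖ = |v 0| := by
        conv_lhs => rw [hvu v, norm_smul, hun, mul_one, Real.norm_eq_abs]
      rw [h1] at hvn
      have h2 := abs_lt.1 hvn
      refine ⟨v 0 / r, ⟨?_, ?_⟩, ?_⟩
      · rw [lt_div_iff₀ hr]
        linarith
      · rw [div_lt_iff₀ hr]
        linarith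
      · simp only [hψ]
        rw [div_mul_cancel₀ _ hr.ne', ← hvu v, hv]
        abel
  have hio : (fun t => e.symm (ψ t)) '' Ioo (-1) 1 = e.symm '' ball (e q) r := by
    rw [← himg, image_image]
  refine ⟨fun t => e.symm (ψ t), ⟨?_, ?_, ?_, ?_⟩, hio⟩
  · exact (e.symm.continuousOn.mono hsub).comp hψc.continuousOn fun t ht => hψcl t ht
  · intro s hs t ht h
    exact hψi s t (e.symm.injOn (hsub (hψcl s hs)) (hsub (hψcl t ht)) h)
  · rw [hio]
    exact e.isOpen_image_symm_of_subset_target isOpen_ball (ball_subset_closedBall.trans hsub)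
  · rintro _ ⟨t, ht, rfl⟩
    exact hBX ⟨_, hψcl t ht, rfl⟩

theorem dim_one {M : Type*} [TopologicalSpace M] [T2Space M] [CompactSpace M]
    [ChartedSpace (EuclideanSpace ℝ (Fin 1)) M] {X₀ : Set M} (hX : IsConnected X₀) (hXcl : IsClosed X₀)
    (hXo : IsOpen X₀) (e : OpenPartialHomeomorph M (EuclideanSpace ℝ (Fin 1))) {q : M} (hq : q ∈ X₀)
    (hqe : q ∈ e.source) {r : ℝ} (hr : 0 < r) (hsub : closedBall (e q) r ⊆ e.target) :
    IsPreconnected (X₀ \ e.symm '' ball (e q) r) := by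
  obtain ⟨γ, hγ, hγb⟩ := arc_chart hXcl hXo e hq hqe hr hsub
  rw [← hγb]
  refine remove_arc hX hXcl.isCompact (fun x hx => ?_) hγ
  set e' := chartAt (EuclideanSpace ℝ (Fin 1)) x with he'
  have hxe : x ∈ e'.source := mem_chart_source _ x
  obtain ⟨r', hr', hr's⟩ := Metric.nhds_basis_closedBall.mem_iff.1
    (e'.open_target.mem_nhds (e'.map_source hxe))
  obtain ⟨γ', h1, h2⟩ := arc_chart hXcl hXo e' hx hxe hr' hr's
  refine ⟨γ', h1, ?_⟩
  rw [h2]
  exact ⟨e' x, mem_ball_self hr', e'.left_inv hxe⟩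

theorem compl_ball (hn : 1 ≤ n) {X₀ : Set M} (hX : IsConnected X₀) (hXcl : IsClosed X₀)
    (hXo : IsOpen X₀) (e : OpenPartialHomeomorph M (EuclideanSpace ℝ (Fin n))) {q : M} (hq : q ∈ X₀)
    (hqe : q ∈ e.source) {r : ℝ} (hr : 0 < r) (hsub : closedBall (e q) r ⊆ e.target) :
    IsConnected (X₀ \ e.symm '' ball (e q) r) := by
  refine ⟨?_, ?_⟩
  · have hBX := ball_sub hXcl hXo e hq hqe hr hsub
    have : Nonempty (Fin n) := ⟨⟨0, by omega⟩⟩
    have : Nontrivial (EuclideanSpace ℝ (Fin n)) := inferInstance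
    obtain ⟨y, hy⟩ := (NormedSpace.sphere_nonempty (E := EuclideanSpace ℝ (Fin n)) (x := e q)).2 hr.le
    refine ⟨e.symm y, hBX ⟨y, sphere_subset_closedBall hy, rfl⟩, ?_⟩
    rintro ⟨z, hz, he⟩
    have h1 := e.symm.injOn (hsub (ball_subset_closedBall hz))
      (hsub (sphere_subset_closedBall hy)) he
    rw [h1] at hz
    rw [mem_sphere] at hy
    rw [mem_ball, hy] at hz
    exact lt_irrefl _ hz
  · rcases Nat.lt_or_ge n 2 with h | h
    · obtain rfl : n = 1 := by omega
      exact dim_one hX hXcl hXo e hq hqe hr hsub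
    · exact dim_ge_two h hX hXcl hXo e hq hqe hr hsub

end Pool.Agent.X84.Hs
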