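import Pool.Agent.X84.Hs.Defs

/-!
# A loop through an attracting fixed point excludes shadowing of subcontinua
-/

open Set Metric TopologicalSpace Filter Topology

set_option autoImplicit false
set_option linter.unusedSectionVars false

noncomputable section

namespace Pool.Agent.X84.Hs

variable {X : Type*} [MetricSpace X] [CompactSpace X]

/-- a uniform gap for two closed conditions without common solution on a compact set -/
theorem gap {D : Set X} (hD : IsCompact D) {u v : X → ℝ} (hu : Continuous u) (hv : Continuous v)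
    (h : ∀ x ∈ D, u x ≤ 0 → v x ≤ 0 → False) : ∃ ε > 0, ∀ x ∈ D, u x < ε → v x < ε → False := by
  rcases D.eq_empty_or_nonempty with rfl | hne
  · exact ⟨1, one_pos, fun x hx => absurd hx (by simp)⟩
  obtain ⟨x, hx, hmin⟩ := hD.exists_isMinOn hne (hu.max hv).continuousOn
  have h1 : 0 < max (u x) (v x) := by
    by_contra h2
    push Not at h2
    exact h x hx ((le_max_left _ _).trans h2) ((le_max_right _ _).trans h2)
  refine ⟨max (u x) (v x), h1, fun y hy h2 h3 => ?_⟩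
  have h4 : max (u x) (v x) ≤ max (u y) (v y) := hmin hy
  exact absurd (max_lt h2 h3) (not_lt.2 h4)

/-- a point of a set is close to the set -/
theorem infDist_lt {s : Set X} {x y : X} {ε : ℝ} (hy : y ∈ s) (h : dist x y < ε) :
    infDist x s < ε := (infDist_le_dist_of_mem hy).trans_lt h

/-- The separation of the orbits of a connected set which follow a cut loop. -/
theorem no_follow (g : X ≃ₜ X) {B Γ₁ Γ₂ : Set X} {q : X} (hB : IsClosed B)
    (hgB : g '' B ⊆ interior B) (hq : q ∈ B) (hgq : g q = q) (h1 : IsClosed Γ₁) (h2 : IsClosed Γ₂)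
    (hne1 : Γ₁.Nonempty) (hi1 : ∀ x, x ∈ Γ₁ → g x ∈ Γ₁) (hi2 : ∀ x, x ∈ Γ₂ → g x ∈ Γ₂)
    (hq2 : q ∈ Γ₂) (hdis : ∀ x ∈ Γ₁, x ∈ Γ₂ → g x ∈ B → x = q) :
    ∃ ε₀ > 0, ∀ ε > 0, ε ≤ ε₀ → ∀ A : ℕ → Set X, (∀ n, A n ⊆ Γ₁ ∪ Γ₂) → q ∈ A 0 →
      (∀ y ∈ A 0, y ∈ Γ₂ ∨ ∀ x, g x ∈ B → x ∉ g '' (g '' interior B) → ε ≤ dist x y) →
      (∃ N, ∀ n ≥ N, ∀ y ∈ A n, y ∈ Γ₂ ∨
        ∀ x, g x ∈ B → x ∉ g '' (g '' interior B) → ε ≤ dist x y) →
      (∃ n, ∃ y ∈ A n, y ∈ Γ₁ ∧ y ∈ B ∧ y ∉ g '' interior B) →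
      ∀ C : Set X, IsClosed C → IsPreconnected C →
        (∀ n, ∀ x ∈ C, ∃ y ∈ A n, dist (g^[n] x) y < ε) →
        (∀ n, ∀ y ∈ A n, ∃ x ∈ C, dist (g^[n] x) y < ε) → False := by
  have hO : IsOpen (interior B) := isOpen_interior
  have hgO : IsOpen (g '' interior B) := g.isOpenMap _ hO
  have hggO : IsOpen (g '' (g '' interior B)) := g.isOpenMap _ hgO
  have hgBc : IsClosed (g '' B) := g.isClosedMap _ hB
  have hggBc : IsClosed (g '' (g '' B)) := g.isClosedMap _ hgBc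
  have hOB : interior B ⊆ B := interior_subset
  have hgOO : g '' interior B ⊆ interior B := (image_mono hOB).trans hgB
  have hggBO : g '' (g '' B) ⊆ g '' interior B := image_mono hgB
  have hqO : q ∈ interior B := hgB ⟨q, hq, hgq⟩
  have hqgg : q ∈ g '' (g '' interior B) := ⟨q, ⟨q, hqO, hgq⟩, hgq⟩
  have hne2 : Γ₂.Nonempty := ⟨q, hq2⟩
  set D' : Set X := {x | g x ∈ B ∧ x ∉ g '' (g '' interior B)} with hD'
  have hD'c : IsCompact D' :=
    ((hB.preimage g.continuous).inter hggO.isClosed_compl).isCompact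
  have hqD' : q ∉ D' := fun h => h.2 hqgg
  set D : Set X := {x | x ∈ B ∧ x ∉ g '' interior B} with hD
  have hDcl : IsClosed D := hB.inter hgO.isClosed_compl
  have hDc : IsCompact D := hDcl.isCompact
  set Do : Set X := {x | g x ∈ interior B ∧ x ∉ g '' (g '' B)} with hDo
  have hDoo : IsOpen Do := (hO.preimage g.continuous).inter hggBc.isOpen_compl
  have hDDo : D ⊆ Do := fun x hx => ⟨hgB ⟨x, hx.1, rfl⟩, fun h => hx.2 (hggBO h)⟩
  have hDoD' : Do ⊆ D' := fun x hx => ⟨hOB hx.1, fun h => hx.2 (image_mono (image_mono hOB) h)⟩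
  have hDD' : D ⊆ D' := hDDo.trans hDoD'
  have hc1 : Continuous fun x : X => infDist x Γ₁ := continuous_infDist_pt _
  have hc2 : Continuous fun x : X => infDist x Γ₂ := continuous_infDist_pt _
  have hm1 : ∀ x, infDist x Γ₁ ≤ 0 → x ∈ Γ₁ := fun x hx =>
    (h1.mem_iff_infDist_zero hne1).2 (le_antisymm hx infDist_nonneg)
  have hm2 : ∀ x, infDist x Γ₂ ≤ 0 → x ∈ Γ₂ := fun x hx =>
    (h2.mem_iff_infDist_zero hne2).2 (le_antisymm hx infDist_nonneg)
  have hgqx : ∀ x, g x = q → x = q := fun x hx => g.injective (hx.trans hgq.symm)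
  obtain ⟨ε1, hε1, G1⟩ := gap hD'c hc1 hc2 (fun x hx h3 h4 => by
    have := hdis x (hm1 x h3) (hm2 x h4) hx.1
    exact hqD' (this ▸ hx))
  obtain ⟨ε2, hε2, G2⟩ := gap hD'c hc1 (hc2.comp g.continuous) (fun x hx h3 h4 => by
    have := hdis (g x) (hi1 x (hm1 x h3)) (hm2 _ h4) (hOB (hgB ⟨g x, hx.1, rfl⟩))
    exact hqD' (hgqx x this ▸ hx))
  obtain ⟨ε3, hε3, G3⟩ := gap hD'c hc2 (hc1.comp g.continuous) (fun x hx h3 h4 => by
    have := hdis (g x) (hm1 _ h4) (hi2 x (hm2 x h3)) (hOB (hgB ⟨g x, hx.1, rfl⟩))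
    exact hqD' (hgqx x this ▸ hx))
  obtain ⟨ε4, hε4, G4⟩ := hDc.exists_thickening_subset_open hDoo hDDo
  obtain ⟨ε5, hε5, G5⟩ := Metric.isOpen_iff.1 hggO q hqgg
  refine ⟨min (min ε1 ε2) (min ε3 (min ε4 ε5)), by positivity, ?_⟩
  intro ε hεp hεl
  have hl1 : ε ≤ ε1 := hεl.trans ((min_le_left _ _).trans (min_le_left _ _))
  have hl2 : ε ≤ ε2 := hεl.trans ((min_le_left _ _).trans (min_le_right _ _))
  have hl3 : ε ≤ ε3 := hεl.trans ((min_le_right _ _).trans (min_le_left _ _))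
  have hl4 : ε ≤ ε4 :=
    hεl.trans ((min_le_right _ _).trans ((min_le_right _ _).trans (min_le_left _ _)))
  have hl5 : ε ≤ ε5 :=
    hεl.trans ((min_le_right _ _).trans ((min_le_right _ _).trans (min_le_right _ _)))
  intro A hA hqA hA0 ⟨N, hN⟩ ⟨n₁, y₁, hy₁, hy₁Γ, hy₁B, hy₁O⟩ C hC hCp hCA hAC
  have hT : ∀ n, ∀ x ∈ C, infDist (g^[n] x) Γ₁ < ε ∨ infDist (g^[n] x) Γ₂ < ε := by
    intro n x hx
    obtain ⟨y, hy, hxy⟩ := hCA n x hx
    rcases hA n hy with h3 | h3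
    · exact Or.inl (infDist_lt h3 hxy)
    · exact Or.inr (infDist_lt h3 hxy)
  have claim0 : ∀ x ∈ C, x ∈ D' → infDist x Γ₁ < ε → False := by
    intro x hx hxD h3
    obtain ⟨y, hy, hxy⟩ := hCA 0 x hx
    rcases hA0 y hy with h4 | h4
    · exact G1 x hxD (h3.trans_le hl1) ((infDist_lt h4 hxy).trans_le hl1)
    · exact absurd hxy (not_lt.2 (h4 x hxD.1 hxD.2))
  have claimN : ∀ n ≥ N, ∀ x ∈ C, g^[n] x ∈ D' → infDist (g^[n] x) Γ₁ < ε → False := by
    intro n hn x hx hxD h3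
    obtain ⟨y, hy, hxy⟩ := hCA n x hx
    rcases hN n hn y hy with h4 | h4
    · exact G1 _ hxD (h3.trans_le hl1) ((infDist_lt h4 hxy).trans_le hl1)
    · exact absurd hxy (not_lt.2 (h4 _ hxD.1 hxD.2))
  have hgn : ∀ n, Continuous g^[n] := fun n => g.continuous.iterate n
  set To : Set X := {x | ∃ n, g^[n] x ∈ Do ∧ infDist (g^[n] x) Γ₁ < ε} with hTo
  have hToo : IsOpen To := by
    have : To = ⋃ n, {x | g^[n] x ∈ Do ∧ infDist (g^[n] x) Γ₁ < ε} := by
      ext x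
      simp [hTo]
    rw [this]
    exact isOpen_iUnion fun n => (hDoo.preimage (hgn n)).inter
      (isOpen_lt (hc1.comp (hgn n)) continuous_const)
  set Tc : Set X := ⋃ n ∈ Finset.range N, {x | g^[n] x ∈ D ∧ ε ≤ infDist (g^[n] x) Γ₂} with hTc
  have hTcc : IsClosed Tc := isClosed_biUnion_finset fun n _ =>
    (hDcl.preimage (hgn n)).inter (isClosed_le continuous_const (hc2.comp (hgn n)))
  have hmTc : ∀ x, (∃ n < N, g^[n] x ∈ D ∧ ε ≤ infDist (g^[n] x) Γ₂) → x ∈ Tc := by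
    rintro x ⟨n, hn, h3⟩
    exact mem_biUnion (Finset.mem_coe.2 (Finset.mem_range.2 hn)) h3
  have hco : ∀ x ∈ C, x ∈ Tc → x ∈ To := by
    intro x hx h3
    rw [hTc, mem_iUnion₂] at h3
    obtain ⟨n, _, h4, h5⟩ := h3
    refine ⟨n, hDDo h4, ?_⟩
    rcases hT n x hx with h6 | h6
    · exact h6
    · exact absurd h6 (not_lt.2 h5)
  have hoc : ∀ x ∈ C, x ∈ To → x ∈ Tc := by
    rintro x hx ⟨n, hnD, hn1⟩
    by_cases ha : g^[n] x ∈ B
    · by_cases hb : g^[n] x ∈ g '' interior B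
      · rcases Nat.eq_zero_or_pos n with rfl | hpos
        · exact (claim0 x hx (hDoD' hnD) hn1).elim
        · obtain ⟨m, rfl⟩ : ∃ m, n = m + 1 := ⟨n - 1, by omega⟩
          rw [Function.iterate_succ_apply'] at hnD hn1 ha hb
          set w := g^[m] x with hw
          have hwO : w ∈ interior B := by
            obtain ⟨w', hw', he⟩ := hb
            rwa [← g.injective he]
          have hwD : w ∈ D := by
            refine ⟨hOB hwO, fun h => hnD.2 ⟨w, ?_, rfl⟩⟩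
            exact image_mono hOB h
          have h7 : ε ≤ infDist w Γ₂ := by
            by_contra h8
            push Not at h8
            exact G3 w (hDD' hwD) (h8.trans_le hl3) (hn1.trans_le hl3)
          refine hmTc x ⟨m, ?_, hwD, h7⟩
          by_contra h8
          push Not at h8
          refine claimN m h8 x hx (hDD' hwD) ?_
          rcases hT m x hx with h6 | h6
          · exact h6
          · exact absurd h6 (not_lt.2 h7)
      · refine hmTc x ⟨n, ?_, ⟨ha, hb⟩, ?_⟩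
        · by_contra h8
          push Not at h8
          exact claimN n h8 x hx (hDoD' hnD) hn1
        · by_contra h8
          push Not at h8
          exact G1 _ (hDoD' hnD) (hn1.trans_le hl1) (h8.trans_le hl1)
    · set z := g^[n] x with hz
      have hgz : g^[n + 1] x = g z := Function.iterate_succ_apply' g n x
      have hgzD : g z ∈ D := by
        refine ⟨hOB hnD.1, ?_⟩
        rintro ⟨w', hw', he⟩
        rw [g.injective he] at hw'
        exact ha (hOB hw')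
      have h7 : ε ≤ infDist (g z) Γ₂ := by
        by_contra h8
        push Not at h8
        exact G2 z (hDoD' hnD) (hn1.trans_le hl2) (h8.trans_le hl2)
      refine hmTc x ⟨n + 1, ?_, by rw [hgz]; exact hgzD, by rw [hgz]; exact h7⟩
      by_contra h8
      push Not at h8
      refine claimN (n + 1) h8 x hx (by rw [hgz]; exact hDD' hgzD) ?_
      rcases hT (n + 1) x hx with h6 | h6
      · exact h6
      · rw [hgz] at h6
        exact absurd h6 (not_lt.2 h7)
  -- a point of type one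
  obtain ⟨x₁, hx₁, hd₁⟩ := hAC n₁ y₁ hy₁
  have hx₁o : x₁ ∈ To := by
    refine ⟨n₁, G4 ?_, infDist_lt hy₁Γ hd₁⟩
    exact mem_thickening_iff.2 ⟨y₁, ⟨hy₁B, hy₁O⟩, hd₁.trans_le hl4⟩
  -- a point which stays near `q`
  obtain ⟨x₂, hx₂, hd₂⟩ := hAC 0 q hqA
  have hx₂n : x₂ ∉ To := by
    rintro ⟨n, hn, _⟩
    have h3 : ∀ n, g^[n] x₂ ∈ g '' (g '' interior B) := by
      intro n
      induction n with
      | zero => exact G5 (mem_ball.2 (hd₂.trans_le hl5))
      | succ n ih =>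
        rw [Function.iterate_succ_apply']
        exact ⟨_, (image_mono hgOO) ih, rfl⟩
    exact hn.2 (image_mono (image_mono hOB) (h3 n))
  have hfin := (isPreconnected_closed_iff.1 hCp) Tc (C ∩ Toᶜ) hTcc (hC.inter hToo.isClosed_compl)
    (fun x hx => by
      by_cases h3 : x ∈ To
      · exact Or.inl (hoc x hx h3)
      · exact Or.inr ⟨hx, h3⟩) ⟨x₁, hx₁, hoc x₁ hx₁ hx₁o⟩ ⟨x₂, hx₂, hx₂, hx₂n⟩
  obtain ⟨x, hx, hxc, _, hxo⟩ := hfin
  exact hxo (hco x hx hxc)

/-- a closed set and a disjoint compact set have a positive distance -/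
theorem sep {D P : Set X} (hD : IsCompact D) (hP : IsClosed P) (h : ∀ x ∈ D, x ∉ P) :
    ∃ ε > 0, ∀ x ∈ D, ∀ y ∈ P, ε ≤ dist x y := by
  rcases P.eq_empty_or_nonempty with rfl | hne
  · exact ⟨1, one_pos, fun x _ y hy => absurd hy (by simp)⟩
  have hc : Continuous fun x : X => infDist x P := continuous_infDist_pt _
  obtain ⟨ε, hε, H⟩ := gap hD hc hc (fun x hx h1 _ =>
    h x hx ((hP.mem_iff_infDist_zero hne).2 (le_antisymm h1 infDist_nonneg)))
  refine ⟨ε, hε, fun x hx y hy => ?_⟩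
  by_contra h2
  push Not at h2
  have h3 := infDist_lt hy h2
  exact H x hx h3 h3

/-- `C(g)` does not have the shadowing property if a loop passes through an attracting fixed point. -/
theorem not_shadowing (g : X ≃ₜ X) {B Γ₁ Γ₂ P F : Set X} {q : X} (hB : IsClosed B)
    (hgB : g '' B ⊆ interior B) (hq : q ∈ B) (hgq : g q = q)
    (hlim : ∀ δ > 0, ∃ n, ∀ x ∈ B, dist (g^[n] x) q < δ) (h1 : IsClosed Γ₁) (h2 : IsClosed Γ₂)
    (hi1 : ∀ x, g x ∈ Γ₁ ↔ x ∈ Γ₁) (hi2 : ∀ x, g x ∈ Γ₂ ↔ x ∈ Γ₂)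
    (hq2 : q ∈ Γ₂) (hdis : ∀ x ∈ Γ₁, x ∈ Γ₂ → g x ∈ B → x = q) (hP : IsClosed P)
    (hPF : P ∪ F = Γ₁) (hgF : ∀ x ∈ F, g x ∈ F)
    (hPB : ∀ x ∈ P, g x ∉ B) (hFB : ∃ n, ∀ x ∈ F, g^[n] x ∈ B) (hF : IsClosed F)
    (hcP : IsConnected (Γ₂ ∪ P)) (hcF : IsConnected (Γ₂ ∪ F))
    (hout : ∀ x ∈ Γ₁, (∀ n, g^[n] x ∉ B) → x ∈ Γ₂)
    (hD : ∃ y ∈ Γ₁, y ∈ B ∧ y ∉ g '' interior B) :
    ¬ Shadowing (induced g g.continuous) := by
  intro hsh
  have hOB : interior B ⊆ B := interior_subset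
  have hstepB : ∀ x ∈ B, g x ∈ B := fun x hx => hOB (hgB ⟨x, hx, rfl⟩)
  have hB' : ∀ n, ∀ x ∈ B, g^[n] x ∈ B := by
    intro n
    induction n with
    | zero => exact fun x hx => hx
    | succ n ih =>
      intro x hx
      rw [Function.iterate_succ_apply']
      exact hstepB _ (ih x hx)
  have hI1 : ∀ n x, g^[n] x ∈ Γ₁ ↔ x ∈ Γ₁ := by
    intro n
    induction n with
    | zero => exact fun x => Iff.rfl
    | succ n ih =>
      intro x
      rw [Function.iterate_succ_apply', hi1, ih]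
  have hI2 : ∀ n x, g^[n] x ∈ Γ₂ ↔ x ∈ Γ₂ := by
    intro n
    induction n with
    | zero => exact fun x => Iff.rfl
    | succ n ih =>
      intro x
      rw [Function.iterate_succ_apply', hi2, ih]
  have hIF : ∀ n, ∀ x ∈ F, g^[n] x ∈ F := by
    intro n
    induction n with
    | zero => exact fun x hx => hx
    | succ n ih =>
      intro x hx
      rw [Function.iterate_succ_apply']
      exact hgF _ (ih x hx)
  have hPΓ : P ⊆ Γ₁ := hPF ▸ subset_union_left
  have hFΓ : F ⊆ Γ₁ := hPF ▸ subset_union_right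
  have hgO : IsOpen (g '' interior B) := g.isOpenMap _ isOpen_interior
  have hggO : IsOpen (g '' (g '' interior B)) := g.isOpenMap _ hgO
  have hD'c : IsCompact {x | g x ∈ B ∧ x ∉ g '' (g '' interior B)} :=
    ((hB.preimage g.continuous).inter hggO.isClosed_compl).isCompact
  obtain ⟨y₁, hy₁Γ, hy₁B, hy₁O⟩ := hD
  obtain ⟨ε₀, hε₀, HF⟩ := no_follow g hB hgB hq hgq h1 h2 ⟨y₁, hy₁Γ⟩ (fun x hx => (hi1 x).2 hx)
    (fun x hx => (hi2 x).2 hx) hq2 hdis
  obtain ⟨ε₁, hε₁, S1⟩ := sep hD'c hP (fun x hx hxP => hPB x hxP hx.1)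
  have hg3 : IsClosed (g '' (g '' (g '' B))) :=
    g.isClosedMap _ (g.isClosedMap _ (g.isClosedMap _ hB))
  obtain ⟨ε₂, hε₂, S2⟩ := sep hD'c hg3 (fun x hx hx3 =>
    hx.2 (image_mono (image_mono hgB) hx3))
  set ε := min ε₀ (min ε₁ ε₂) with hεd
  have hε : 0 < ε := by positivity
  have he0 : ε ≤ ε₀ := min_le_left _ _
  have he1 : ε ≤ ε₁ := (min_le_right _ _).trans (min_le_left _ _)
  have he2 : ε ≤ ε₂ := (min_le_right _ _).trans (min_le_right _ _)
  obtain ⟨δ, hδ, HJ⟩ := hsh.jump hε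
  obtain ⟨i₀, hi₀⟩ := hFB
  -- the end of `F` is close to `q`
  obtain ⟨n₂, hn₂⟩ := hlim (δ / 2) (by positivity)
  have hFq : ∀ x ∈ F, dist (g^[n₂ + i₀ + 1] x) q < δ / 2 := by
    intro x hx
    have : g^[n₂ + i₀ + 1] x = g^[n₂] (g^[i₀] (g x)) := by
      rw [Function.iterate_succ_apply, Function.iterate_add_apply]
    rw [this]
    exact hn₂ _ (hi₀ _ (hgF x hx))
  set N₀ := n₂ + i₀ + 1 with hN₀
  -- the far past of `P` is close to `Γ₂`
  have hPm : ∃ m : ℕ, ∀ x, g^[m] x ∈ P → ∃ y ∈ Γ₂, dist x y < δ / 2 := by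
    by_contra hcon
    push Not at hcon
    choose x hxP hxd using hcon
    obtain ⟨a, φ, hφ, ha⟩ := CompactSpace.tendsto_subseq x
    have haΓ : a ∈ Γ₁ := h1.mem_of_tendsto ha
      (Eventually.of_forall fun k => (hI1 (φ k) _).1 (hPΓ (hxP (φ k))))
    have haB : ∀ n, g^[n] a ∉ B := by
      intro n hn
      have h3 : g^[n + 1] a ∈ interior B := by
        rw [Function.iterate_succ_apply']
        exact hgB ⟨_, hn, rfl⟩
      have h4 : ∀ᶠ k in atTop, g^[n + 1] (x (φ k)) ∈ interior B :=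
        (((g.continuous.iterate (n + 1)).tendsto a).comp ha).eventually
          (isOpen_interior.mem_nhds h3)
      obtain ⟨k, hk1, hk2⟩ := (h4.and (eventually_ge_atTop n)).exists
      have hk3 : n ≤ φ k := hk2.trans (hφ.id_le k)
      have h5 := hB' (φ k - n) _ (hOB hk1)
      rw [← Function.iterate_add_apply] at h5
      have h6 : φ k - n + (n + 1) = φ k + 1 := by omega
      rw [h6, Function.iterate_succ_apply'] at h5
      exact hPB _ (hxP (φ k)) h5
    have haΓ2 := hout a haΓ haB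
    have h7 : ∀ᶠ k in atTop, dist (x (φ k)) a < δ / 2 :=
      ha.eventually (Metric.ball_mem_nhds a (by positivity))
    obtain ⟨k, hk⟩ := h7.exists
    exact absurd hk (not_lt.2 (hxd (φ k) a haΓ2))
  obtain ⟨m, hm⟩ := hPm
  -- the two continua
  have hKPc : IsCompact (Γ₂ ∪ P) := (h2.union hP).isCompact
  have hKFc : IsCompact (Γ₂ ∪ F) := (h2.union hF).isCompact
  let KP : Continua X := ⟨⟨⟨Γ₂ ∪ P, hKPc⟩, hcP.nonempty⟩, hcP⟩
  let KF : Continua X := ⟨⟨⟨Γ₂ ∪ F, hKFc⟩, hcF.nonempty⟩, hcF⟩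
  let K' : Continua X := (induced g.symm g.symm.continuous)^[m] KF
  have hKPcoe : (KP.1 : Set X) = Γ₂ ∪ P := rfl
  have hKFcoe : (KF.1 : Set X) = Γ₂ ∪ F := rfl
  have hlinv : ∀ x, g^[m] (g.symm^[m] x) = x :=
    fun x => (Function.LeftInverse.iterate g.apply_symm_apply m) x
  have hrinv : ∀ x, g.symm^[m] (g^[m] x) = x :=
    fun x => (Function.LeftInverse.iterate g.symm_apply_apply m) x
  have hK'mem : ∀ x, x ∈ (K'.1 : Set X) ↔ g^[m] x ∈ Γ₂ ∪ F := by
    intro x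
    rw [show (K'.1 : Set X) = g.symm^[m] '' (KF.1 : Set X) from induced_iter _ _ _ _, hKFcoe]
    constructor
    · rintro ⟨y, hy, rfl⟩
      rwa [hlinv]
    · intro hx
      exact ⟨_, hx, hrinv x⟩
  have hdist : dist ((induced g g.continuous)^[N₀] KP) K' < δ := by
    rw [Subtype.dist_eq, NonemptyCompacts.dist_eq, induced_iter, hKPcoe]
    have hle : hausdorffDist (g^[N₀] '' (Γ₂ ∪ P)) (K'.1 : Set X) ≤ δ / 2 := by
      refine hausdorffDist_le_of_mem_dist (by positivity) ?_ ?_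
      · rintro _ ⟨p, hp | hp, rfl⟩
        · refine ⟨g^[N₀] p, (hK'mem _).2 (Or.inl ((hI2 m _).2 ((hI2 N₀ p).2 hp))), ?_⟩
          rw [dist_self]
          positivity
        · have h3 : g^[m] (g^[N₀] p) ∈ Γ₁ := (hI1 m _).2 ((hI1 N₀ p).2 (hPΓ hp))
          rw [← hPF] at h3
          rcases h3 with h3 | h3
          · obtain ⟨y, hy, hd⟩ := hm _ h3
            exact ⟨y, (hK'mem _).2 (Or.inl ((hI2 m _).2 hy)), hd.le⟩
          · refine ⟨g^[N₀] p, (hK'mem _).2 (Or.inr h3), ?_⟩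
            rw [dist_self]
            positivity
      · intro x hx
        rcases (hK'mem x).1 hx with h3 | h3
        · have hx2 : x ∈ Γ₂ := (hI2 m x).1 h3
          have hs : g^[N₀] (g.symm^[N₀] x) = x :=
            (Function.LeftInverse.iterate g.apply_symm_apply N₀) x
          refine ⟨x, ⟨g.symm^[N₀] x, Or.inl ?_, hs⟩, ?_⟩
          · rw [← hI2 N₀, hs]
            exact hx2
          · rw [dist_self]
            positivity
        · have hx1 : x ∈ Γ₁ := (hI1 m x).1 (hFΓ h3)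
          have hs : g^[N₀] (g.symm^[N₀] x) = x :=
            (Function.LeftInverse.iterate g.apply_symm_apply N₀) x
          have hw : g.symm^[N₀] x ∈ Γ₁ := by
            rw [← hI1 N₀, hs]
            exact hx1
          rw [← hPF] at hw
          rcases hw with hw | hw
          · refine ⟨x, ⟨g.symm^[N₀] x, Or.inr hw, hs⟩, ?_⟩
            rw [dist_self]
            positivity
          · have h4 := hFq _ hw
            rw [hs] at h4
            have hqs : g^[N₀] q = q := Function.iterate_fixed hgq N₀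
            exact ⟨q, ⟨q, Or.inl hq2, hqs⟩, h4.le⟩
    linarith
  obtain ⟨z, hz1, hz2⟩ := HJ KP K' N₀ hdist
  have hfin : ∀ K L : Continua X, hausdorffEDist (K.1 : Set X) (L.1 : Set X) ≠ ⊤ := fun K L =>
    hausdorffEDist_ne_top_of_nonempty_of_bounded K.1.nonempty L.1.nonempty
      K.1.isCompact.isBounded L.1.isCompact.isBounded
  have hclose : ∀ K L : Continua X, dist K L < ε →
      (∀ x ∈ (K.1 : Set X), ∃ y ∈ (L.1 : Set X), dist x y < ε) ∧
      (∀ y ∈ (L.1 : Set X), ∃ x ∈ (K.1 : Set X), dist x y < ε) := by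
    intro K L hKL
    rw [Subtype.dist_eq, NonemptyCompacts.dist_eq] at hKL
    refine ⟨fun x hx => exists_dist_lt_of_hausdorffDist_lt hx hKL (hfin K L), fun y hy => ?_⟩
    rw [hausdorffDist_comm] at hKL
    obtain ⟨x, hx, hxy⟩ := exists_dist_lt_of_hausdorffDist_lt hy hKL (hfin L K)
    exact ⟨x, hx, by rwa [dist_comm]⟩
  let A : ℕ → Set X := fun n => if n < N₀ then g^[n] '' (Γ₂ ∪ P) else g^[n - N₀] '' (K'.1 : Set X)
  have hA : ∀ n, ∃ L : Continua X, (L.1 : Set X) = A n ∧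
      dist ((induced g g.continuous)^[n] z) L < ε := by
    intro n
    rcases Nat.lt_or_ge n N₀ with h3 | h3
    · refine ⟨(induced g g.continuous)^[n] KP, ?_, hz1 n h3⟩
      show _ = if n < N₀ then _ else _
      rw [if_pos h3, induced_iter, hKPcoe]
    · refine ⟨(induced g g.continuous)^[n - N₀] K', ?_, ?_⟩
      · show _ = if n < N₀ then _ else _
        rw [if_neg (by omega), induced_iter]
      · have := hz2 (n - N₀)
        rwa [Nat.add_sub_cancel' h3] at this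
  refine HF ε hε he0 A ?_ ?_ ?_ ?_ ?_ (z.1 : Set X) z.1.isCompact.isClosed z.2.isPreconnected ?_ ?_
  · intro n
    show (if n < N₀ then g^[n] '' (Γ₂ ∪ P) else g^[n - N₀] '' (K'.1 : Set X)) ⊆ _
    split_ifs
    · rintro _ ⟨p, hp | hp, rfl⟩
      · exact Or.inr ((hI2 n p).2 hp)
      · exact Or.inl ((hI1 n p).2 (hPΓ hp))
    · rintro _ ⟨x, hx, rfl⟩
      rcases (hK'mem x).1 hx with h3 | h3
      · exact Or.inr ((hI2 _ x).2 ((hI2 m x).1 h3))
      · exact Or.inl ((hI1 _ x).2 ((hI1 m x).1 (hFΓ h3)))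
  · show q ∈ (if 0 < N₀ then g^[0] '' (Γ₂ ∪ P) else _)
    rw [if_pos (by omega)]
    exact ⟨q, Or.inl hq2, rfl⟩
  · intro y hy
    change y ∈ (if 0 < N₀ then g^[0] '' (Γ₂ ∪ P) else _) at hy
    rw [if_pos (by omega)] at hy
    obtain ⟨p, hp | hp, rfl⟩ := hy
    · exact Or.inl hp
    · exact Or.inr fun x hx1 hx2 => he1.trans (S1 x ⟨hx1, hx2⟩ p hp)
  · refine ⟨N₀ + m + i₀ + 3, fun n hn y hy => ?_⟩
    change y ∈ (if n < N₀ then _ else g^[n - N₀] '' (K'.1 : Set X)) at hy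
    rw [if_neg (by omega)] at hy
    obtain ⟨x, hx, rfl⟩ := hy
    rcases (hK'mem x).1 hx with h3 | h3
    · exact Or.inl ((hI2 _ x).2 ((hI2 m x).1 h3))
    · refine Or.inr fun x' hx1 hx2 => he2.trans (S2 x' ⟨hx1, hx2⟩ _ ?_)
      have h4 : n - N₀ = 3 + ((n - N₀ - m - i₀ - 3) + (i₀ + m)) := by omega
      have h5 : g^[n - N₀] x = g^[3] (g^[n - N₀ - m - i₀ - 3] (g^[i₀] (g^[m] x))) := by
        conv_lhs => rw [h4]
        rw [Function.iterate_add_apply, Function.iterate_add_apply, Function.iterate_add_apply]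
      rw [h5]
      have h6 : g^[n - N₀ - m - i₀ - 3] (g^[i₀] (g^[m] x)) ∈ B := hB' _ _ (hi₀ _ h3)
      exact ⟨_, ⟨_, ⟨_, h6, rfl⟩, rfl⟩, rfl⟩
  · refine ⟨N₀, y₁, ?_, hy₁Γ, hy₁B, hy₁O⟩
    show y₁ ∈ (if N₀ < N₀ then _ else g^[N₀ - N₀] '' (K'.1 : Set X))
    rw [if_neg (lt_irrefl _), Nat.sub_self]
    refine ⟨y₁, (hK'mem y₁).2 (Or.inr (hIF m _ ?_)), rfl⟩
    have h3 := hy₁Γ
    rw [← hPF] at h3
    rcases h3 with h3 | h3
    · exact absurd (hstepB _ hy₁B) (hPB _ h3)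
    · exact h3
  · intro n x hx
    obtain ⟨L, hL, hd⟩ := hA n
    have h3 := (hclose _ _ hd).1 (g^[n] x) (by
      rw [induced_iter]
      exact ⟨x, hx, rfl⟩)
    rwa [hL] at h3
  · intro n y hy
    obtain ⟨L, hL, hd⟩ := hA n
    rw [← hL] at hy
    obtain ⟨x', hx', hxy⟩ := (hclose _ _ hd).2 y hy
    rw [induced_iter] at hx'
    obtain ⟨x, hx, rfl⟩ := hx'
    exact ⟨x, hx, hxy⟩

end Pool.Agent.X84.Hs
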