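import Mathlib

/-!
# A curve invariant under a linear contraction which is a square
-/

open Set Metric Filter Topology

set_option autoImplicit false

noncomputable section

namespace Pool.Agent.X84.Hs

variable {n : ℕ}

/-- `ι(z) = Re (z w)` -/
def io (w : Fin n → ℂ) (z : ℂ) : EuclideanSpace ℝ (Fin n) := WithLp.toLp 2 fun i => (z * w i).re

theorem io_apply (w : Fin n → ℂ) (z : ℂ) (i : Fin n) : io w z i = (z * w i).re := rfl

theorem io_add (w : Fin n → ℂ) (y z : ℂ) : io w (y + z) = io w y + io w z := by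
  ext i
  simp [io_apply, add_mul]

theorem io_smul (w : Fin n → ℂ) (r : ℝ) (z : ℂ) : io w (r * z) = r • io w z := by
  ext i
  simp [io_apply, mul_assoc]

theorem io_zero (w : Fin n → ℂ) : io w 0 = 0 := by
  ext i
  simp [io_apply]

theorem continuous_io (w : Fin n → ℂ) : Continuous (io w) := by
  unfold io
  refine (PiLp.continuous_toLp 2 _).comp (continuous_pi fun i => ?_)
  exact Complex.continuous_re.comp (continuous_id.mul continuous_const)

/-- an eigenvector of the complexification -/
theorem exists_io (hn : 1 ≤ n) (C : EuclideanSpace ℝ (Fin n) →L[ℝ] EuclideanSpace ℝ (Fin n)) :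
    ∃ (w : Fin n → ℂ) (l : ℂ), (∃ z, io w z ≠ 0) ∧ ∀ z, C (io w z) = io w (l * z) := by
  have : Nonempty (Fin n) := ⟨⟨0, by omega⟩⟩
  let b := PiLp.basisFun 2 ℝ (Fin n)
  let M := LinearMap.toMatrix b b (C : EuclideanSpace ℝ (Fin n) →ₗ[ℝ] EuclideanSpace ℝ (Fin n))
  obtain ⟨l, hl⟩ := Module.End.exists_eigenvalue (K := ℂ) (V := Fin n → ℂ)
    (Matrix.toLin' (M.map (fun x : ℝ => (x : ℂ))))
  obtain ⟨w, hw⟩ := hl.exists_hasEigenvector
  have hw0 : w ≠ 0 := hw.2
  have hwe : ∀ i, ∑ j, (M i j : ℂ) * w j = l * w i := by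
    intro i
    have h1 := congrFun hw.apply_eq_smul i
    simpa [Matrix.toLin'_apply, Matrix.mulVec, dotProduct] using h1
  refine ⟨w, l, ?_, fun z => ?_⟩
  · obtain ⟨i, hi⟩ := Function.ne_iff.1 hw0
    refine ⟨(starRingEnd ℂ) (w i), fun h => ?_⟩
    have h1 := congrArg (fun x : EuclideanSpace ℝ (Fin n) => x i) h
    change io w _ i = (0 : EuclideanSpace ℝ (Fin n)) i at h1
    rw [io_apply, mul_comm, Complex.mul_conj] at h1
    simp only [PiLp.zero_apply, Complex.ofReal_re] at h1
    exact hi (Complex.normSq_eq_zero.1 h1)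
  · ext i
    have h1 := LinearMap.toMatrix_mulVec_repr b b
      (C : EuclideanSpace ℝ (Fin n) →ₗ[ℝ] EuclideanSpace ℝ (Fin n)) (io w z)
    have h2 := congrFun h1 i
    have h3 : (C (io w z)) i = ∑ j, M i j * (io w z) j := by
      rw [Matrix.mulVec, dotProduct] at h2
      simpa [b] using h2.symm
    rw [h3, io_apply]
    have h4 : l * z * w i = z * ∑ j, (M i j : ℂ) * w j := by
      rw [hwe]
      ring
    rw [h4, Finset.mul_sum, Complex.re_sum]
    refine Finset.sum_congr rfl fun j _ => ?_
    rw [io_apply]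
    have h5 : z * ((M i j : ℂ) * w j) = (M i j : ℂ) * (z * w j) := by ring
    rw [h5, Complex.re_ofReal_mul]

/-- the invariant curve -/
theorem exists_curve (hn : 1 ≤ n) {C A : EuclideanSpace ℝ (Fin n) →L[ℝ] EuclideanSpace ℝ (Fin n)}
    (hC : ∀ v, C v = 0 → v = 0) (hA : ∀ v, A v = C (C v)) (hA2 : ∀ v, ‖A v‖ ≤ 1 / 2 * ‖v‖) :
    ∃ c : ℝ → EuclideanSpace ℝ (Fin n), Continuous c ∧ c 1 = A (c 0) ∧
      ∀ (m : ℕ), ∀ t ∈ Icc (0 : ℝ) 1, ∀ t' ∈ Icc (0 : ℝ) 1, (A ^ m) (c t) + c t' ≠ 0 := by
  obtain ⟨w, l, ⟨z₀, hz₀⟩, hCw⟩ := exists_io hn C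
  have hl : l ≠ 0 := by
    rintro rfl
    have h1 := hCw z₀
    rw [zero_mul, io_zero] at h1
    exact hz₀ (hC _ h1)
  have hAw : ∀ z, A (io w z) = io w (l ^ 2 * z) := by
    intro z
    rw [hA, hCw, hCw]
    congr 1
    ring
  have hAm : ∀ m : ℕ, ∀ z, (A ^ m) (io w z) = io w ((l ^ 2) ^ m * z) := by
    intro m
    induction m with
    | zero => intro z; simp
    | succ m ih =>
      intro z
      rw [pow_succ, mul_apply_eq_comp, hAw, ih]
      congr 1
      ring
  have hl2 : l ^ 2 ≠ 0 := pow_ne_zero 2 hl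
  by_cases him : l.im = 0
  · -- real eigenvalue
    have hlr : l = (l.re : ℂ) := Complex.ext rfl (by simp [him])
    set r := l.re with hr
    have hr0 : r ≠ 0 := by
      intro h
      rw [h] at hlr
      exact hl (by rw [hlr]; simp)
    have hr2 : 0 < r ^ 2 := by positivity
    have hAr : ∀ m : ℕ, (A ^ m) (io w z₀) = (r ^ 2) ^ m • io w z₀ := by
      intro m
      rw [hAm, ← io_smul]
      congr 2
      rw [hlr]
      push_cast
      ring
    refine ⟨fun t => Real.exp (t * Real.log (r ^ 2)) • io w z₀, ?_, ?_, ?_⟩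
    · exact (Real.continuous_exp.comp (continuous_id.mul continuous_const)).smul continuous_const
    · have h1 := hAr 1
      rw [pow_one, pow_one] at h1
      simp only [one_mul, zero_mul, Real.exp_zero, one_smul, Real.exp_log hr2, h1]
    · intro m t _ t' _ h
      rw [map_smul, hAr, smul_smul, ← add_smul] at h
      rcases smul_eq_zero.1 h with h1 | h1
      · have : 0 < Real.exp (t * Real.log (r ^ 2)) * (r ^ 2) ^ m +
          Real.exp (t' * Real.log (r ^ 2)) := by positivity
        exact this.ne' h1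
      · exact hz₀ h1
  · -- complex eigenvalue
    have hinj : ∀ z, io w z = 0 → z = 0 := by
      intro z hz
      by_contra hz0
      apply hz₀
      have hlz : io w (l * z) = 0 := by
        rw [← hCw, hz, map_zero]
      set u := z₀ / z with hu
      have h1 : z₀ = ((u.re - u.im / l.im * l.re : ℝ) : ℂ) * z +
          ((u.im / l.im : ℝ) : ℂ) * (l * z) := by
        have h2 : u = ((u.re - u.im / l.im * l.re : ℝ) : ℂ) + ((u.im / l.im : ℝ) : ℂ) * l := by
          apply Complex.ext
          · simp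
          · simp
            field_simp
        have h3 : z₀ = u * z := by
          rw [hu]
          field_simp
        rw [h3]
        conv_lhs => rw [h2]
        ring
      rw [h1, io_add, io_smul, io_smul, hz, hlz, smul_zero, smul_zero, add_zero]
    -- the modulus of the eigenvalue
    have hcirc : IsCompact (sphere (0 : ℂ) 1) := isCompact_sphere 0 1
    obtain ⟨z₁, hz₁, hmax⟩ := hcirc.exists_isMaxOn ⟨1, by simp⟩ (continuous_io w).norm.continuousOn
    have hz₁n : ‖z₁‖ = 1 := by simpa using hz₁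
    have hz₁0 : z₁ ≠ 0 := by
      intro h
      rw [h, norm_zero] at hz₁n
      exact zero_ne_one hz₁n
    have hmpos : 0 < ‖io w z₁‖ := norm_pos_iff.2 fun h => hz₁0 (hinj _ h)
    have hlam : ‖l ^ 2‖ ≤ 1 / 2 := by
      set z₂ := z₁ * ((‖l ^ 2‖ : ℝ) : ℂ) / l ^ 2 with hz₂
      have hn2 : ‖z₂‖ = 1 := by
        rw [hz₂, norm_div, norm_mul, hz₁n, one_mul, Complex.norm_real, norm_norm,
          div_self (norm_ne_zero_iff.2 hl2)]
      have h1 : A (io w z₂) = ‖l ^ 2‖ • io w z₁ := by
        rw [hAw, ← io_smul]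
        congr 1
        rw [hz₂]
        field_simp
      have h2 := hA2 (io w z₂)
      rw [h1, norm_smul, norm_norm] at h2
      have h3 : ‖io w z₂‖ ≤ ‖io w z₁‖ := hmax (by simpa using hn2)
      have h4 : ‖l ^ 2‖ * ‖io w z₁‖ ≤ 1 / 2 * ‖io w z₁‖ := h2.trans (by linarith)
      exact le_of_mul_le_mul_right h4 hmpos
    set μ := Complex.log (l ^ 2) with hμ
    have hexp : Complex.exp μ = l ^ 2 := Complex.exp_log hl2
    have hre : μ.re < 0 := by
      rw [hμ, Complex.log_re]
      refine Real.log_neg (norm_pos_iff.2 hl2) ?_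
      linarith
    refine ⟨fun t => io w (Complex.exp (t * μ)), ?_, ?_, ?_⟩
    · exact (continuous_io w).comp (Complex.continuous_exp.comp
        (Complex.continuous_ofReal.mul continuous_const))
    · simp only [Complex.ofReal_one, one_mul, Complex.ofReal_zero, zero_mul, Complex.exp_zero, hexp]
      rw [hAw, mul_one]
    · intro m t ht t' ht' h
      rw [hAm, ← io_add] at h
      have h1 := hinj _ h
      have h2 : Complex.exp (((m : ℝ) + t : ℝ) * μ) = -Complex.exp (t' * μ) := by
        have : (((m : ℝ) + t : ℝ) : ℂ) * μ = m * μ + t * μ := by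
          push_cast
          ring
        rw [this, Complex.exp_add, Complex.exp_nat_mul, hexp]
        linear_combination h1
      have h3 := congrArg norm h2
      rw [norm_neg, Complex.norm_exp, Complex.norm_exp, Real.exp_eq_exp, Complex.re_ofReal_mul,
        Complex.re_ofReal_mul] at h3
      have h4 : (m : ℝ) + t = t' := mul_right_cancel₀ hre.ne h3
      rw [h4] at h2
      have h5 : Complex.exp (t' * μ) ≠ 0 := Complex.exp_ne_zero _
      have h6 : (2 : ℂ) * Complex.exp (t' * μ) = 0 := by linear_combination h2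
      rcases mul_eq_zero.1 h6 with h7 | h7
      · norm_num at h7
      · exact h5 h7

end Pool.Agent.X84.Hs
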