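import Mathlib

/-!
# The hyperspace of subcontinua, the induced map and the shadowing property
-/

open Set Metric TopologicalSpace

set_option autoImplicit false

noncomputable section

namespace Pool.Agent.X84.Hs

/-- The hyperspace `C(X)` of the subcontinua of `X` (nonempty compact connected subsets), with the
Hausdorff metric. -/
abbrev Continua (X : Type*) [MetricSpace X] : Type _ :=
  {K : NonemptyCompacts X // IsConnected (K : Set X)}

/-- The induced map `C(f) : C(X) → C(X)`, `C(f)(A) = f(A)`. -/
def induced {X : Type*} [MetricSpace X] (f : X → X) (hf : Continuous f) (A : Continua X) :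
    Continua X :=
  ⟨A.1.map f hf, by
    rw [NonemptyCompacts.coe_map]
    exact A.2.image f hf.continuousOn⟩

/-- The shadowing property. -/
def Shadowing {Y : Type*} [MetricSpace Y] (g : Y → Y) : Prop :=
  ∀ ε > 0, ∃ δ > 0, ∀ y : ℕ → Y, (∀ n, dist (g (y n)) (y (n + 1)) < δ) →
    ∃ z : Y, ∀ n, dist (g^[n] z) (y n) < ε

theorem induced_coe {X : Type*} [MetricSpace X] (f : X → X) (hf : Continuous f) (A : Continua X) :
    ((induced f hf A).1 : Set X) = f '' (A.1 : Set X) := NonemptyCompacts.coe_map _ _

theorem induced_iter {X : Type*} [MetricSpace X] (f : X → X) (hf : Continuous f) (n : ℕ)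
    (A : Continua X) : (((induced f hf)^[n] A).1 : Set X) = f^[n] '' (A.1 : Set X) := by
  induction n with
  | zero => simp
  | succ n ih =>
    rw [Function.iterate_succ_apply', induced_coe, ih, ← image_comp, ← Function.iterate_succ']

/-- shadowing passes to iterates -/
theorem Shadowing.iterate {Y : Type*} [MetricSpace Y] {g : Y → Y} (h : Shadowing g) {k : ℕ}
    (hk : 1 ≤ k) : Shadowing g^[k] := by
  intro ε hε
  obtain ⟨δ, hδ, H⟩ := h ε hε
  refine ⟨δ, hδ, fun y hy => ?_⟩
  have h1 : ∀ m, dist (g (g^[m % k] (y (m / k)))) (g^[(m + 1) % k] (y ((m + 1) / k))) < δ := by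
    intro m
    have hm := Nat.mod_add_div m k
    have hlt : m % k < k := Nat.mod_lt _ (by omega)
    rw [← Function.iterate_succ_apply' g]
    rcases Nat.lt_or_ge (m % k + 1) k with h2 | h2
    · have h3 : (m + 1) / k = m / k := by
        have : m + 1 = (m % k + 1) + k * (m / k) := by omega
        rw [this, Nat.add_mul_div_left _ _ (by omega), Nat.div_eq_of_lt h2, zero_add]
      have h4 : (m + 1) % k = m % k + 1 := by
        have : m + 1 = (m % k + 1) + k * (m / k) := by omega
        rw [this, Nat.add_mul_mod_self_left, Nat.mod_eq_of_lt h2]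
      rw [h3, h4]
      show dist (g^[m % k + 1] (y (m / k))) _ < δ
      rw [dist_self]
      exact hδ
    · have h5 : m % k + 1 = k := by omega
      have h3 : (m + 1) / k = m / k + 1 := by
        have : m + 1 = 0 + k * (m / k + 1) := by
          rw [mul_add, mul_one, zero_add]
          omega
        rw [this, Nat.add_mul_div_left _ _ (by omega), Nat.zero_div, zero_add]
      have h4 : (m + 1) % k = 0 := by
        have : m + 1 = 0 + k * (m / k + 1) := by
          rw [mul_add, mul_one, zero_add]
          omega
        rw [this, Nat.add_mul_mod_self_left, Nat.zero_mod]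
      rw [h3, h4]
      show dist (g^[m % k + 1] (y (m / k))) _ < δ
      rw [h5]
      exact hy _
  obtain ⟨z, hz⟩ := H (fun m => g^[m % k] (y (m / k))) h1
  refine ⟨z, fun n => ?_⟩
  have h6 := hz (k * n)
  simp only [Nat.mul_mod_right, Function.iterate_zero, id_eq] at h6
  rw [Nat.mul_div_cancel_left _ (by omega)] at h6
  rw [← Function.iterate_mul]
  exact h6

/-- one jump -/
theorem Shadowing.jump {Y : Type*} [MetricSpace Y] {g : Y → Y} (h : Shadowing g) {ε : ℝ}
    (hε : 0 < ε) : ∃ δ > 0, ∀ (K K' : Y) (N : ℕ), dist (g^[N] K) K' < δ →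
      ∃ z : Y, (∀ n < N, dist (g^[n] z) (g^[n] K) < ε) ∧
        ∀ j, dist (g^[N + j] z) (g^[j] K') < ε := by
  obtain ⟨δ, hδ, H⟩ := h ε hε
  refine ⟨δ, hδ, fun K K' N hKK => ?_⟩
  obtain ⟨z, hz⟩ := H (fun n => if n < N then g^[n] K else g^[n - N] K') (by
    intro n
    show dist (g (if n < N then g^[n] K else g^[n - N] K'))
      (if n + 1 < N then g^[n + 1] K else g^[n + 1 - N] K') < δ
    rcases Nat.lt_or_ge n N with h1 | h1
    · rw [if_pos h1, ← Function.iterate_succ_apply' g]
      rcases Nat.lt_or_ge (n + 1) N with h2 | h2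
      · rw [if_pos h2, dist_self]
        exact hδ
      · have h3 : n + 1 = N := by omega
        rw [if_neg (by omega)]
        have h4 : n + 1 - N = 0 := by omega
        rw [h4]
        show dist (g^[n + 1] K) K' < δ
        rw [h3]
        exact hKK
    · rw [if_neg (by omega), if_neg (by omega), ← Function.iterate_succ_apply' g]
      have h3 : n + 1 - N = n - N + 1 := by omega
      rw [h3, dist_self]
      exact hδ)
  refine ⟨z, fun n hn => ?_, fun j => ?_⟩
  · have := hz n
    rwa [if_pos hn] at this
  · have := hz (N + j)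
    rw [if_neg (by omega), Nat.add_sub_cancel_left] at this
    exact this

end Pool.Agent.X84.Hs
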