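import Pool.Agent.X84.Hs.Curve

/-!
# Two arcs in fundamental domains of an attracting fixed point whose orbits are disjoint
-/

open Set Metric Filter Topology

set_option autoImplicit false
set_option linter.unusedSectionVars false

noncomputable section

namespace Pool.Agent.X84.Hs

variable {E : Type*} [NormedAddCommGroup E] [NormedSpace ℝ E]

/-- the arc from `a + s d(0)` to `φ(a + s d(0))` -/
def arc (φ : E → E) (A : E →L[ℝ] E) (a : E) (d : ℝ → E) (s t : ℝ) : E :=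
  a + s • d t + t • (φ (a + s • d 0) - a - s • A (d 0))

theorem continuous_arc (φ : E → E) (A : E →L[ℝ] E) (a : E) {d : ℝ → E} (hd : Continuous d)
    (s : ℝ) : Continuous (arc φ A a d s) := by
  unfold arc
  exact (continuous_const.add (continuous_const.smul hd)).add (continuous_id.smul continuous_const)

theorem arc_zero (φ : E → E) (A : E →L[ℝ] E) (a : E) (d : ℝ → E) (s : ℝ) :
    arc φ A a d s 0 = a + s • d 0 := by
  unfold arc
  rw [zero_smul, add_zero]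

theorem arc_one (φ : E → E) (A : E →L[ℝ] E) (a : E) {d : ℝ → E} (h : d 1 = A (d 0)) (s : ℝ) :
    arc φ A a d s 1 = φ (arc φ A a d s 0) := by
  rw [arc_zero]
  unfold arc
  rw [h, one_smul]
  abel

theorem arc_near {φ : E → E} {A : E →L[ℝ] E} {a : E} (hφa : φ a = a) (hφ : HasFDerivAt φ A a)
    (d : ℝ → E) {η : ℝ} (hη : 0 < η) :
    ∀ᶠ s in 𝓝[>] (0 : ℝ), ∀ t ∈ Icc (0 : ℝ) 1, ‖arc φ A a d s t - a - s • d t‖ ≤ η * s := by
  set K := ‖d 0‖ + 1 with hK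
  have hKp : 0 < K := by positivity
  have h1 := hφ.isLittleO.def (show 0 < η / K by positivity)
  have h2 : Tendsto (fun s : ℝ => a + s • d 0) (𝓝[>] 0) (𝓝 a) := by
    have : Tendsto (fun s : ℝ => a + s • d 0) (𝓝 0) (𝓝 (a + (0 : ℝ) • d 0)) :=
      (continuous_const.add (continuous_id.smul continuous_const)).tendsto 0
    rw [zero_smul, add_zero] at this
    exact this.mono_left nhdsWithin_le_nhds
  filter_upwards [h2.eventually h1, self_mem_nhdsWithin] with s hs hs0 t ht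
  have hs0' : 0 < s := hs0
  have h3 : arc φ A a d s t - a - s • d t = t • (φ (a + s • d 0) - a - s • A (d 0)) := by
    unfold arc
    abel
  rw [h3, norm_smul, Real.norm_eq_abs, abs_of_nonneg ht.1]
  rw [hφa, add_sub_cancel_left, map_smul] at hs
  have h4 : ‖s • d 0‖ = s * ‖d 0‖ := by rw [norm_smul, Real.norm_eq_abs, abs_of_pos hs0']
  rw [h4] at hs
  calc t * ‖φ (a + s • d 0) - a - s • A (d 0)‖ ≤ 1 * (η / K * (s * ‖d 0‖)) :=
        mul_le_mul ht.2 hs (norm_nonneg _) zero_le_one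
    _ ≤ η / K * (s * K) := by
        rw [one_mul]
        have : ‖d 0‖ ≤ K := by rw [hK]; linarith
        gcongr
    _ = η * s := by field_simp

theorem iter_fix {φ : E → E} {a : E} (h : φ a = a) (m : ℕ) : φ^[m] a = a :=
  Function.iterate_fixed h m

theorem arc_iter_near {φ : E → E} {A : E →L[ℝ] E} {a : E} (hφa : φ a = a)
    (hφ : HasFDerivAt φ A a) {d : ℝ → E} {M : ℝ} (hM : ∀ t ∈ Icc (0 : ℝ) 1, ‖d t‖ ≤ M)
    (m : ℕ) {η : ℝ} (hη : 0 < η) :
    ∀ᶠ s in 𝓝[>] (0 : ℝ), ∀ t ∈ Icc (0 : ℝ) 1,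
      ‖φ^[m] (arc φ A a d s t) - a - s • (A ^ m) (d t)‖ ≤ η * s := by
  have hM0 : 0 ≤ M := (norm_nonneg _).trans (hM 0 (by simp))
  have hφm : HasFDerivAt φ^[m] (A ^ m) a := hφ.iterate hφa m
  set η₁ := η / (2 * (M + 1)) with hη₁
  have hη₁p : 0 < η₁ := by positivity
  set η₂ := min 1 (η / (2 * (‖A ^ m‖ + 1))) with hη₂
  have hη₂p : 0 < η₂ := by positivity
  have h1 := hφm.isLittleO.def hη₁p
  obtain ⟨r, hr, hrm⟩ := Metric.eventually_nhds_iff_ball.1 h1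
  have hsm : ∀ᶠ s in 𝓝[>] (0 : ℝ), s * (M + 1) < r := by
    have : Tendsto (fun s : ℝ => s * (M + 1)) (𝓝[>] 0) (𝓝 0) := by
      have h2 : Tendsto (fun s : ℝ => s * (M + 1)) (𝓝 0) (𝓝 (0 * (M + 1))) :=
        (continuous_id.mul continuous_const).tendsto 0
      rw [zero_mul] at h2
      exact h2.mono_left nhdsWithin_le_nhds
    exact this.eventually_lt_const hr
  filter_upwards [arc_near hφa hφ d hη₂p, hsm, self_mem_nhdsWithin] with s hs hsr hs0 t ht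
  have hs0' : 0 < s := hs0
  have h2 := hs t ht
  set x := arc φ A a d s t with hx
  have h3 : ‖x - a‖ ≤ s * (M + 1) := by
    have h4 : x - a = (x - a - s • d t) + s • d t := by abel
    have h5 : ‖s • d t‖ ≤ s * M := by
      rw [norm_smul, Real.norm_eq_abs, abs_of_pos hs0']
      exact mul_le_mul_of_nonneg_left (hM t ht) hs0'.le
    have h6 : η₂ * s ≤ 1 * s := mul_le_mul_of_nonneg_right (min_le_left _ _) hs0'.le
    rw [h4]
    calc _ ≤ ‖x - a - s • d t‖ + ‖s • d t‖ := norm_add_le _ _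
      _ ≤ s * (M + 1) := by linarith
  have h7 := hrm x (by rw [mem_ball, dist_eq_norm]; exact h3.trans_lt hsr)
  rw [iter_fix hφa] at h7
  have h8 : φ^[m] x - a - s • (A ^ m) (d t) =
      (φ^[m] x - a - (A ^ m) (x - a)) + (A ^ m) (x - a - s • d t) := by
    rw [map_sub (A ^ m) (x - a), map_smul]
    abel
  rw [h8]
  have h9 : ‖(A ^ m) (x - a - s • d t)‖ ≤ ‖A ^ m‖ * (η₂ * s) :=
    ((A ^ m).le_opNorm _).trans (mul_le_mul_of_nonneg_left h2 (norm_nonneg _))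
  have h10 : ‖A ^ m‖ * (η₂ * s) ≤ η / 2 * s := by
    have h11 : η₂ ≤ η / (2 * (‖A ^ m‖ + 1)) := min_le_right _ _
    have h12 : ‖A ^ m‖ * η₂ ≤ η / 2 := by
      calc ‖A ^ m‖ * η₂ ≤ (‖A ^ m‖ + 1) * (η / (2 * (‖A ^ m‖ + 1))) := by
            gcongr
            linarith
        _ = η / 2 := by field_simp
    calc _ = ‖A ^ m‖ * η₂ * s := by ring
      _ ≤ _ := mul_le_mul_of_nonneg_right h12 hs0'.le
  have h13 : η₁ * ‖x - a‖ ≤ η / 2 * s := by
    calc η₁ * ‖x - a‖ ≤ η₁ * (s * (M + 1)) := mul_le_mul_of_nonneg_left h3 hη₁p.le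
      _ = η / 2 * s := by
        rw [hη₁]
        field_simp
  calc _ ≤ ‖φ^[m] x - a - (A ^ m) (x - a)‖ + ‖(A ^ m) (x - a - s • d t)‖ := norm_add_le _ _
    _ ≤ η / 2 * s + η / 2 * s := add_le_add (h7.trans h13) (h9.trans h10)
    _ = η * s := by ring

theorem iter_contr {φ : E → E} {a : E} {r : ℝ}
    (hcon : ∀ x ∈ closedBall a r, ‖φ x - a‖ ≤ 3 / 4 * ‖x - a‖) (m : ℕ) :
    ∀ x ∈ closedBall a r, φ^[m] x ∈ closedBall a r ∧ ‖φ^[m] x - a‖ ≤ (3 / 4) ^ m * ‖x - a‖ := by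
  induction m with
  | zero =>
    intro x hx
    simpa using hx
  | succ m ih =>
    intro x hx
    obtain ⟨h1, h2⟩ := ih x hx
    have h3 := hcon _ h1
    rw [Function.iterate_succ_apply']
    have h4 : ‖φ (φ^[m] x) - a‖ ≤ (3 / 4) ^ (m + 1) * ‖x - a‖ := by
      calc _ ≤ 3 / 4 * ‖φ^[m] x - a‖ := h3
        _ ≤ 3 / 4 * ((3 / 4) ^ m * ‖x - a‖) := by gcongr
        _ = _ := by ring
    refine ⟨?_, h4⟩
    rw [mem_closedBall, dist_eq_norm] at h1 ⊢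
    have := norm_nonneg (φ^[m] x - a)
    linarith

/-- two arcs with disjoint orbits -/
theorem exists_arcs {φ : E → E} {A : E →L[ℝ] E} {a : E} (hφa : φ a = a) (hφ : HasFDerivAt φ A a)
    {r : ℝ} (hr : 0 < r) (hcon : ∀ x ∈ closedBall a r, ‖φ x - a‖ ≤ 3 / 4 * ‖x - a‖)
    {c : ℝ → E} (hc : Continuous c) (hc1 : c 1 = A (c 0))
    (hcA : ∀ (m : ℕ), ∀ t ∈ Icc (0 : ℝ) 1, ∀ t' ∈ Icc (0 : ℝ) 1, (A ^ m) (c t) + c t' ≠ 0) :
    ∃ γ₁ γ₂ : ℝ → E, Continuous γ₁ ∧ Continuous γ₂ ∧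
      (∀ t ∈ Icc (0 : ℝ) 1, γ₁ t ∈ ball a r ∧ γ₁ t ≠ a) ∧
      (∀ t ∈ Icc (0 : ℝ) 1, γ₂ t ∈ ball a r ∧ γ₂ t ≠ a) ∧ γ₁ 1 = φ (γ₁ 0) ∧ γ₂ 1 = φ (γ₂ 0) ∧
      (∀ (m : ℕ), ∀ t ∈ Icc (0 : ℝ) 1, ∀ t' ∈ Icc (0 : ℝ) 1, φ^[m] (γ₁ t) ≠ γ₂ t') ∧
      (∀ (m : ℕ), ∀ t ∈ Icc (0 : ℝ) 1, ∀ t' ∈ Icc (0 : ℝ) 1, φ^[m] (γ₂ t) ≠ γ₁ t') := by
  have hI : IsCompact (Icc (0 : ℝ) 1) := isCompact_Icc
  have hIne : (Icc (0 : ℝ) 1).Nonempty := ⟨0, by simp⟩
  have hcne : ∀ t ∈ Icc (0 : ℝ) 1, c t ≠ 0 := by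
    intro t ht h
    have := hcA 0 t ht t ht
    rw [h, map_zero, add_zero] at this
    exact this rfl
  obtain ⟨t₁, ht₁, hmax⟩ := hI.exists_isMaxOn hIne hc.norm.continuousOn
  obtain ⟨t₀, ht₀, hmin⟩ := hI.exists_isMinOn hIne hc.norm.continuousOn
  set M := ‖c t₁‖ with hM
  set m₀ := ‖c t₀‖ with hm₀
  have hm₀p : 0 < m₀ := norm_pos_iff.2 (hcne t₀ ht₀)
  have hMb : ∀ t ∈ Icc (0 : ℝ) 1, ‖c t‖ ≤ M := fun t ht => hmax ht
  have hmb : ∀ t ∈ Icc (0 : ℝ) 1, m₀ ≤ ‖c t‖ := fun t ht => hmin ht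
  have hMp : 0 < M := hm₀p.trans_le (hMb t₀ ht₀)
  set d : ℝ → E := fun t => -c t with hd
  have hdc : Continuous d := hc.neg
  have hd1 : d 1 = A (d 0) := by
    simp only [hd, map_neg, hc1]
  have hMd : ∀ t ∈ Icc (0 : ℝ) 1, ‖d t‖ ≤ M := fun t ht => by
    simp only [hd, norm_neg]
    exact hMb t ht
  have hmd : ∀ t ∈ Icc (0 : ℝ) 1, m₀ ≤ ‖d t‖ := fun t ht => by
    simp only [hd, norm_neg]
    exact hmb t ht
  -- the separation of the linear curves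
  have hμ : ∀ m : ℕ, ∃ μ > 0, ∀ t ∈ Icc (0 : ℝ) 1, ∀ t' ∈ Icc (0 : ℝ) 1,
      μ ≤ ‖(A ^ m) (c t) + c t'‖ := by
    intro m
    have hcont : Continuous fun p : ℝ × ℝ => ‖(A ^ m) (c p.1) + c p.2‖ :=
      (((A ^ m).continuous.comp (hc.comp continuous_fst)).add (hc.comp continuous_snd)).norm
    obtain ⟨p, hp, hpm⟩ := (hI.prod hI).exists_isMinOn (hIne.prod hIne) hcont.continuousOn
    exact ⟨_, norm_pos_iff.2 (hcA m p.1 hp.1 p.2 hp.2), fun t ht t' ht' => hpm (mk_mem_prod ht ht')⟩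
  -- the number of steps
  obtain ⟨m₁, hm₁⟩ : ∃ m₁ : ℕ, (3 / 4 : ℝ) ^ m₁ * (M + m₀) < m₀ / 2 := by
    have h1 : Tendsto (fun m : ℕ => (3 / 4 : ℝ) ^ m * (M + m₀)) atTop (𝓝 (0 * (M + m₀))) :=
      (tendsto_pow_atTop_nhds_zero_of_lt_one (by norm_num) (by norm_num)).mul_const _
    rw [zero_mul] at h1
    exact (h1.eventually_lt_const (by positivity)).exists
  -- bounds for the arcs
  have hb : ∀ e : ℝ → E, (∀ t ∈ Icc (0 : ℝ) 1, ‖e t‖ ≤ M) → (∀ t ∈ Icc (0 : ℝ) 1, m₀ ≤ ‖e t‖) →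
      ∀ᶠ s in 𝓝[>] (0 : ℝ), ∀ t ∈ Icc (0 : ℝ) 1,
        s * (m₀ / 2) ≤ ‖arc φ A a e s t - a‖ ∧ ‖arc φ A a e s t - a‖ ≤ s * (M + m₀) := by
    intro e he1 he2
    filter_upwards [arc_near hφa hφ e (show 0 < m₀ / 2 by positivity), self_mem_nhdsWithin] with
      s hs hs0 t ht
    have hs0' : 0 < s := hs0
    have h1 := hs t ht
    have h2 : ‖s • e t‖ = s * ‖e t‖ := by rw [norm_smul, Real.norm_eq_abs, abs_of_pos hs0']
    have h3 := mul_le_mul_of_nonneg_left (he1 t ht) hs0'.le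
    have h4 := mul_le_mul_of_nonneg_left (he2 t ht) hs0'.le
    have h5 : arc φ A a e s t - a = (arc φ A a e s t - a - s • e t) + s • e t := by abel
    have h6 : s • e t = (arc φ A a e s t - a) - (arc φ A a e s t - a - s • e t) := by abel
    constructor
    · have h7 : ‖s • e t‖ ≤ ‖arc φ A a e s t - a‖ + ‖arc φ A a e s t - a - s • e t‖ := by
        conv_lhs => rw [h6]
        exact norm_sub_le _ _
      nlinarith
    · have h7 : ‖arc φ A a e s t - a‖ ≤ ‖arc φ A a e s t - a - s • e t‖ + ‖s • e t‖ := by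
        conv_lhs => rw [h5]
        exact norm_add_le _ _
      nlinarith
  -- separation at the first steps
  have hsep : ∀ m : ℕ, ∀ᶠ s in 𝓝[>] (0 : ℝ), ∀ t ∈ Icc (0 : ℝ) 1, ∀ t' ∈ Icc (0 : ℝ) 1,
      φ^[m] (arc φ A a c s t) ≠ arc φ A a d s t' ∧ φ^[m] (arc φ A a d s t) ≠ arc φ A a c s t' := by
    intro m
    obtain ⟨μ, hμp, hμm⟩ := hμ m
    have hη : 0 < μ / 3 := by positivity
    filter_upwards [arc_iter_near hφa hφ hMb m hη, arc_iter_near hφa hφ hMd m hη,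
      arc_near hφa hφ c hη, arc_near hφa hφ d hη, self_mem_nhdsWithin] with s h1 h2 h3 h4 hs0 t ht
      t' ht'
    have hs0' : 0 < s := hs0
    have h5 := mul_le_mul_of_nonneg_left (hμm t ht t' ht') hs0'.le
    have h6 : ‖s • ((A ^ m) (c t) + c t')‖ = s * ‖(A ^ m) (c t) + c t'‖ := by
      rw [norm_smul, Real.norm_eq_abs, abs_of_pos hs0']
    rw [← h6] at h5
    have h7 : 0 < s * μ := by positivity
    constructor
    · intro heq
      have h8 : s • ((A ^ m) (c t) + c t') = (arc φ A a d s t' - a - s • d t') -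
          (φ^[m] (arc φ A a c s t) - a - s • (A ^ m) (c t)) := by
        rw [heq]
        simp only [hd, smul_neg, smul_add]
        abel
      rw [h8] at h5
      have h9 := norm_sub_le (arc φ A a d s t' - a - s • d t')
        (φ^[m] (arc φ A a c s t) - a - s • (A ^ m) (c t))
      have h10 := h1 t ht
      have h11 := h4 t' ht'
      nlinarith
    · intro heq
      have h8 : s • ((A ^ m) (c t) + c t') = (φ^[m] (arc φ A a d s t) - a - s • (A ^ m) (d t)) -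
          (arc φ A a c s t' - a - s • c t') := by
        rw [heq]
        simp only [hd, map_neg, smul_neg, smul_add]
        abel
      rw [h8] at h5
      have h9 := norm_sub_le (φ^[m] (arc φ A a d s t) - a - s • (A ^ m) (d t))
        (arc φ A a c s t' - a - s • c t')
      have h10 := h2 t ht
      have h11 := h3 t' ht'
      nlinarith
  have hsr : ∀ᶠ s in 𝓝[>] (0 : ℝ), s * (M + m₀) < r := by
    have : Tendsto (fun s : ℝ => s * (M + m₀)) (𝓝[>] 0) (𝓝 0) := by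
      have h2 : Tendsto (fun s : ℝ => s * (M + m₀)) (𝓝 0) (𝓝 (0 * (M + m₀))) :=
        (continuous_id.mul continuous_const).tendsto 0
      rw [zero_mul] at h2
      exact h2.mono_left nhdsWithin_le_nhds
    exact this.eventually_lt_const hr
  have hall : ∀ᶠ s in 𝓝[>] (0 : ℝ), ∀ m ∈ Finset.range m₁, ∀ t ∈ Icc (0 : ℝ) 1,
      ∀ t' ∈ Icc (0 : ℝ) 1,
      φ^[m] (arc φ A a c s t) ≠ arc φ A a d s t' ∧ φ^[m] (arc φ A a d s t) ≠ arc φ A a c s t' :=
    (Filter.eventually_all_finset _).2 fun m _ => hsep m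
  obtain ⟨s, h1, h2, h3, h4, hs0⟩ :=
    ((hb c hMb hmb).and ((hb d hMd hmd).and (hsr.and (hall.and self_mem_nhdsWithin)))).exists
  have hs0' : 0 < s := hs0
  have hlate : ∀ e e' : ℝ → E,
      (∀ t ∈ Icc (0 : ℝ) 1, s * (m₀ / 2) ≤ ‖arc φ A a e s t - a‖ ∧
        ‖arc φ A a e s t - a‖ ≤ s * (M + m₀)) →
      (∀ t ∈ Icc (0 : ℝ) 1, s * (m₀ / 2) ≤ ‖arc φ A a e' s t - a‖ ∧
        ‖arc φ A a e' s t - a‖ ≤ s * (M + m₀)) →
      ∀ m, m₁ ≤ m → ∀ t ∈ Icc (0 : ℝ) 1, ∀ t' ∈ Icc (0 : ℝ) 1,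
        φ^[m] (arc φ A a e s t) ≠ arc φ A a e' s t' := by
    intro e e' he he' m hm t ht t' ht' heq
    have h5 := (iter_contr hcon m (arc φ A a e s t) (by
      rw [mem_closedBall, dist_eq_norm]
      exact (he t ht).2.trans h3.le)).2
    rw [heq] at h5
    have h6 := (he' t' ht').1
    have h7 : (3 / 4 : ℝ) ^ m ≤ (3 / 4) ^ m₁ :=
      pow_le_pow_of_le_one (by norm_num) (by norm_num) hm
    have h8 : (3 / 4 : ℝ) ^ m * ‖arc φ A a e s t - a‖ ≤ (3 / 4) ^ m₁ * (s * (M + m₀)) :=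
      mul_le_mul h7 (he t ht).2 (norm_nonneg _) (by positivity)
    have h9 : (3 / 4 : ℝ) ^ m₁ * (s * (M + m₀)) < s * (m₀ / 2) := by
      calc _ = s * ((3 / 4 : ℝ) ^ m₁ * (M + m₀)) := by ring
        _ < _ := mul_lt_mul_of_pos_left hm₁ hs0'
    linarith
  have hne : ∀ e : ℝ → E,
      (∀ t ∈ Icc (0 : ℝ) 1, s * (m₀ / 2) ≤ ‖arc φ A a e s t - a‖ ∧
        ‖arc φ A a e s t - a‖ ≤ s * (M + m₀)) →
      ∀ t ∈ Icc (0 : ℝ) 1, arc φ A a e s t ∈ ball a r ∧ arc φ A a e s t ≠ a := by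
    intro e he t ht
    refine ⟨?_, fun h => ?_⟩
    · rw [mem_ball, dist_eq_norm]
      exact (he t ht).2.trans_lt h3
    · have h5 := (he t ht).1
      rw [h, sub_self, norm_zero] at h5
      have : 0 < s * (m₀ / 2) := by positivity
      linarith
  refine ⟨arc φ A a c s, arc φ A a d s, continuous_arc _ _ _ hc _, continuous_arc _ _ _ hdc _,
    hne c h1, hne d h2, arc_one φ A a hc1 s, arc_one φ A a hd1 s, ?_, ?_⟩
  · intro m t ht t' ht'
    rcases Nat.lt_or_ge m m₁ with h | h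
    · exact (h4 m (Finset.mem_range.2 h) t ht t' ht').1
    · exact hlate c d h1 h2 m h t ht t' ht'
  · intro m t ht t' ht'
    rcases Nat.lt_or_ge m m₁ with h | h
    · exact (h4 m (Finset.mem_range.2 h) t ht t' ht').2
    · exact hlate d c h2 h1 m h t ht t' ht'

end Pool.Agent.X84.Hs
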