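import Pool.Agent.X84.Hs.Sink
import Pool.Agent.X84.Hs.Ball
import Pool.Agent.X84.Hs.Loc
import Pool.Agent.X84.Hs.Arcs

/-!
# `C(f)` does not have the shadowing property
-/

open Set Metric Filter Topology Manifold
open scoped ContDiff

set_option autoImplicit false
set_option linter.unusedSectionVars false

noncomputable section

namespace Pool.Agent.X84.Hs

variable {n : ℕ} {M : Type*} [MetricSpace M] [ChartedSpace (EuclideanSpace ℝ (Fin n)) M]
  [IsManifold (𝓡 n) 1 M] [CompactSpace M]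

/-- the iterates of a homeomorphism -/
def iterHomeo (f : M ≃ₜ M) (k : ℕ) : M ≃ₜ M where
  toFun := f^[k]
  invFun := f.symm^[k]
  left_inv := Function.LeftInverse.iterate f.symm_apply_apply k
  right_inv := Function.LeftInverse.iterate f.apply_symm_apply k
  continuous_toFun := f.continuous.iterate k
  continuous_invFun := f.symm.continuous.iterate k

theorem iterHomeo_coe (f : M ≃ₜ M) (k : ℕ) : ⇑(iterHomeo f k) = f^[k] := rfl

theorem component_inv (h : M ≃ₜ M) {p : M} (hp : h p = p) (x : M) :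
    h x ∈ connectedComponent p ↔ x ∈ connectedComponent p := by
  constructor
  · intro hx
    have h1 : IsPreconnected (h.symm '' connectedComponent p) :=
      isPreconnected_connectedComponent.image _ h.symm.continuous.continuousOn
    have h2 : p ∈ h.symm '' connectedComponent p :=
      ⟨p, mem_connectedComponent, by rw [Homeomorph.symm_apply_eq, hp]⟩
    exact h1.subset_connectedComponent h2 ⟨h x, hx, h.symm_apply_apply x⟩
  · intro hx
    have h1 : IsPreconnected (h '' connectedComponent p) :=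
      isPreconnected_connectedComponent.image _ h.continuous.continuousOn
    exact h1.subset_connectedComponent ⟨p, mem_connectedComponent, hp⟩ ⟨x, hx, rfl⟩

theorem sink_not_shadowing (hn : 1 ≤ n) (h : M ≃ₜ M) (hh : ContMDiff (𝓡 n) (𝓡 n) 1 h) {p : M}
    (hp : h p = p) {C : EuclideanSpace ℝ (Fin n) →L[ℝ] EuclideanSpace ℝ (Fin n)}
    (hC : ∀ v, C v = 0 → v = 0) (hA : ∀ v, deriv (n := n) h p v = C (C v))
    (hA2 : ∀ v, ‖deriv (n := n) h p v‖ ≤ 1 / 2 * ‖v‖) : ¬ Shadowing (induced h h.continuous) := by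
  have : LocallyConnectedSpace M := ChartedSpace.locallyConnectedSpace (EuclideanSpace ℝ (Fin n)) M
  obtain ⟨c, hc, hc1, hcA⟩ := exists_curve hn hC hA hA2
  set e := chartAt (EuclideanSpace ℝ (Fin n)) p with he
  have hpe : p ∈ e.source := mem_chart_source _ p
  set a := e p with ha
  set φ := inChart (n := n) h p with hφ
  have hφa : φ a = a := inChart_fix hp
  have hst := strict_chart hh hp
  have hder : HasFDerivAt φ (deriv (n := n) h p) a := hst.hasFDerivAt
  -- a small ball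
  have hcon0 : ∀ᶠ y in 𝓝 a, ‖φ y - a‖ ≤ 3 / 4 * ‖y - a‖ := by
    filter_upwards [hder.isLittleO.def (show (0 : ℝ) < 1 / 4 by norm_num)] with y hy
    rw [hφa] at hy
    have h1 := hA2 (y - a)
    have h2 : φ y - a = (φ y - a - deriv (n := n) h p (y - a)) + deriv (n := n) h p (y - a) := by
      abel
    rw [h2]
    exact (norm_add_le _ _).trans (by linarith)
  have hsrc : ∀ᶠ y in 𝓝 a, h (e.symm y) ∈ e.source := by
    have h1 : Tendsto (fun y => h (e.symm y)) (𝓝 a) (𝓝 p) := by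
      have h2 : Tendsto e.symm (𝓝 a) (𝓝 p) := by
        have := e.continuousAt_symm (e.map_source hpe)
        rwa [ContinuousAt, e.left_inv hpe] at this
      have h3 : Tendsto h (𝓝 p) (𝓝 p) := by
        have := h.continuous.tendsto p
        rwa [hp] at this
      exact h3.comp h2
    exact h1.eventually (e.open_source.mem_nhds hpe)
  obtain ⟨r, hr, hrs⟩ := Metric.nhds_basis_closedBall.eventually_iff.1
    (hcon0.and (hsrc.and (e.open_target.mem_nhds (e.map_source hpe))))
  have hcon : ∀ y ∈ closedBall a r, ‖φ y - a‖ ≤ 3 / 4 * ‖y - a‖ := fun y hy => (hrs hy).1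
  have htar : closedBall a r ⊆ e.target := fun y hy => (hrs hy).2.2
  have hsym : ∀ y ∈ closedBall a r, e.symm (φ y) = h (e.symm y) := fun y hy => by
    rw [hφ]
    unfold inChart
    exact e.left_inv (hrs hy).2.1
  have hmaps : ∀ y ∈ closedBall a r, φ y ∈ closedBall a r := by
    intro y hy
    have h1 := hcon y hy
    rw [mem_closedBall, dist_eq_norm] at hy ⊢
    have := norm_nonneg (y - a)
    linarith
  have hsymk : ∀ k : ℕ, ∀ y ∈ closedBall a r, φ^[k] y ∈ closedBall a r ∧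
      e.symm (φ^[k] y) = h^[k] (e.symm y) := by
    intro k
    induction k with
    | zero => exact fun y hy => ⟨hy, rfl⟩
    | succ k ih =>
      intro y hy
      obtain ⟨h1, h2⟩ := ih y hy
      rw [Function.iterate_succ_apply', Function.iterate_succ_apply', ← h2]
      exact ⟨hmaps _ h1, hsym _ h1⟩
  have hsa : e.symm a = p := e.left_inv hpe
  have hφne : ∀ y ∈ closedBall a r, y ≠ a → φ y ≠ a := by
    intro y hy hya hφy
    have h1 := hsym y hy
    rw [hφy, hsa] at h1
    have h2 : e.symm y = p := h.injective (by rw [← h1, hp])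
    rw [← hsa] at h2
    exact hya (e.symm.injOn (htar hy) (htar (mem_closedBall_self hr.le)) h2)
  -- the arcs
  obtain ⟨γ₁, γ₂, hγ₁, hγ₂, hb₁, hb₂, hn₁, hn₂, hd₁, hd₂⟩ :=
    exists_arcs hφa hder hr hcon hc hc1 hcA
  have hI : IsCompact (Icc (0 : ℝ) 1) := isCompact_Icc
  have hIne : (Icc (0 : ℝ) 1).Nonempty := ⟨0, by simp⟩
  have hsub : closedBall a r ⊆ (fun y => φ y) ⁻¹' closedBall a r := hmaps
  have hφc : ContinuousOn φ (closedBall a r) := by
    have h1 : ContinuousOn (fun y => h (e.symm y)) (closedBall a r) :=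
      h.continuous.comp_continuousOn (e.symm.continuousOn.mono htar)
    exact e.continuousOn.comp h1 fun y hy => (hrs hy).2.1
  have hlow : ∀ γ : ℝ → EuclideanSpace ℝ (Fin n), Continuous γ →
      (∀ t ∈ Icc (0 : ℝ) 1, γ t ∈ ball a r ∧ γ t ≠ a) →
      ∃ ρ > 0, ∀ t ∈ Icc (0 : ℝ) 1, ρ ≤ ‖φ (γ t) - a‖ := by
    intro γ hγ hb
    have h1 : ContinuousOn (fun t => ‖φ (γ t) - a‖) (Icc 0 1) :=
      ((hφc.comp hγ.continuousOn fun t ht => ball_subset_closedBall (hb t ht).1).sub
        continuousOn_const).norm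
    obtain ⟨t₀, ht₀, hmin⟩ := hI.exists_isMinOn hIne h1
    refine ⟨_, norm_pos_iff.2 (sub_ne_zero.2
      (hφne _ (ball_subset_closedBall (hb t₀ ht₀).1) (hb t₀ ht₀).2)), fun t ht => hmin ht⟩
  obtain ⟨ρ₁, hρ₁, hl₁⟩ := hlow γ₁ hγ₁ hb₁
  obtain ⟨ρ₂, hρ₂, hl₂⟩ := hlow γ₂ hγ₂ hb₂
  set r' := min r (min ρ₁ ρ₂) / 2 with hr'
  have hr'p : 0 < r' := by positivity
  have hr'r : r' ≤ r := by
    have : min r (min ρ₁ ρ₂) ≤ r := min_le_left _ _
    have h2 : 0 < min r (min ρ₁ ρ₂) := by positivity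
    rw [hr']
    linarith
  have hr'1 : r' < ρ₁ := by
    have : min r (min ρ₁ ρ₂) ≤ ρ₁ := (min_le_right _ _).trans (min_le_left _ _)
    rw [hr']
    linarith
  have hr'2 : r' < ρ₂ := by
    have : min r (min ρ₁ ρ₂) ≤ ρ₂ := (min_le_right _ _).trans (min_le_right _ _)
    rw [hr']
    linarith
  have hcl : closedBall a r' ⊆ closedBall a r := closedBall_subset_closedBall hr'r
  set B := e.symm '' closedBall a r' with hB
  set O := e.symm '' ball a r' with hO
  have hBc : IsClosed B := ((isCompact_closedBall _ _).image_of_continuousOn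
    (e.symm.continuousOn.mono (hcl.trans htar))).isClosed
  have hOo : IsOpen O := e.isOpen_image_symm_of_subset_target isOpen_ball
    ((ball_subset_closedBall.trans hcl).trans htar)
  have hOB : O ⊆ interior B := interior_maximal (image_mono ball_subset_closedBall) hOo
  have hBO : ∀ x ∈ B, h x ∈ O := by
    rintro _ ⟨y, hy, rfl⟩
    refine ⟨φ y, ?_, hsym y (hcl hy)⟩
    have h1 := hcon y (hcl hy)
    rw [mem_closedBall, dist_eq_norm] at hy
    rw [mem_ball, dist_eq_norm]
    linarith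
  have hgB : h '' B ⊆ interior B := by
    rintro _ ⟨x, hx, rfl⟩
    exact hOB (hBO x hx)
  have hpB : p ∈ B := ⟨a, mem_closedBall_self hr'p.le, hsa⟩
  have hlim : ∀ δ > 0, ∃ k, ∀ x ∈ B, dist (h^[k] x) p < δ := by
    intro δ hδ
    have h1 : ∀ᶠ y in 𝓝 a, dist (e.symm y) p < δ := by
      have h2 : Tendsto e.symm (𝓝 a) (𝓝 p) := by
        have := e.continuousAt_symm (e.map_source hpe)
        rwa [ContinuousAt, e.left_inv hpe] at this
      exact h2.eventually (ball_mem_nhds p hδ)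
    obtain ⟨ρ, hρ, hρs⟩ := Metric.eventually_nhds_iff_ball.1 h1
    obtain ⟨k, hk⟩ : ∃ k : ℕ, (3 / 4 : ℝ) ^ k * r' < ρ := by
      have h3 : Tendsto (fun k : ℕ => (3 / 4 : ℝ) ^ k * r') atTop (𝓝 (0 * r')) :=
        (tendsto_pow_atTop_nhds_zero_of_lt_one (by norm_num) (by norm_num)).mul_const _
      rw [zero_mul] at h3
      exact (h3.eventually_lt_const hρ).exists
    refine ⟨k, ?_⟩
    rintro _ ⟨y, hy, rfl⟩
    rw [← (hsymk k y (hcl hy)).2]
    refine hρs _ ?_
    have h4 := (iter_contr hcon k y (hcl hy)).2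
    rw [mem_closedBall, dist_eq_norm] at hy
    rw [mem_ball, dist_eq_norm]
    refine h4.trans_lt (lt_of_le_of_lt ?_ hk)
    gcongr
  -- the component
  set X₀ := connectedComponent p with hX₀
  have hXcl : IsClosed X₀ := isClosed_connectedComponent
  have hXo : IsOpen X₀ := isOpen_connectedComponent
  have hXc : IsConnected X₀ := isConnected_connectedComponent
  have hpX : p ∈ X₀ := mem_connectedComponent
  have hXi : ∀ x, h x ∈ X₀ ↔ x ∈ X₀ := component_inv h hp
  have hXik : ∀ k : ℕ, ∀ x, h^[k] x ∈ X₀ ↔ x ∈ X₀ := by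
    intro k
    induction k with
    | zero => exact fun x => Iff.rfl
    | succ k ih =>
      intro x
      rw [Function.iterate_succ_apply', hXi, ih]
  have hcompl : IsConnected (X₀ \ O) :=
    compl_ball hn hXc hXcl hXo e hpX hpe hr'p (hcl.trans htar)
  have hΛ : IsConnected {x | x ∈ X₀ ∧ ∀ k, h^[k] x ∉ B} := by
    have heq : {x | x ∈ X₀ ∧ ∀ k, h^[k] x ∉ B} = ⋂ k : ℕ, {x | h^[k] x ∈ X₀ \ O} := by
      ext x
      simp only [mem_ofPred_eq, mem_iInter]
      constructor
      · rintro ⟨h1, h2⟩ k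
        exact ⟨(hXik k x).2 h1, fun h3 => h2 k (image_mono ball_subset_closedBall h3)⟩
      · intro h1
        refine ⟨(h1 0).1, fun k hk => ?_⟩
        have h2 := hBO _ hk
        rw [← Function.iterate_succ_apply' h] at h2
        exact (h1 (k + 1)).2 h2
    rw [heq]
    refine nested_connected (fun k => ?_) (fun k => ?_) (fun k => ?_)
    · exact (hXcl.sdiff hOo).preimage (h.continuous.iterate k)
    · have h1 : {x | h^[k] x ∈ X₀ \ O} = h.symm^[k] '' (X₀ \ O) := by
        ext x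
        constructor
        · intro hx
          exact ⟨_, hx, (Function.LeftInverse.iterate h.symm_apply_apply k) x⟩
        · rintro ⟨z, hz, rfl⟩
          show h^[k] (h.symm^[k] z) ∈ X₀ \ O
          rw [(Function.LeftInverse.iterate h.apply_symm_apply k) z]
          exact hz
      rw [h1]
      exact hcompl.image _ (h.symm.continuous.iterate k).continuousOn
    · intro x hx
      change h^[k + 1] x ∈ X₀ \ O at hx
      rw [Function.iterate_succ_apply'] at hx
      exact ⟨(hXi _).1 hx.1, fun h1 => hx.2 (hBO _ (image_mono ball_subset_closedBall h1))⟩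
  have hballX : e.symm '' closedBall a r ⊆ X₀ := ball_sub hXcl hXo e hpX hpe hr htar
  have hdata : ∀ γ : ℝ → EuclideanSpace ℝ (Fin n), Continuous γ →
      (∀ t ∈ Icc (0 : ℝ) 1, γ t ∈ ball a r ∧ γ t ≠ a) → γ 1 = φ (γ 0) →
      (∀ t ∈ Icc (0 : ℝ) 1, r' < ‖φ (γ t) - a‖) →
      ArcData h B X₀ ((fun t => e.symm (γ t)) '' Icc 0 1) := by
    intro γ hγ hb hγ1 hlo
    have hcl' : ∀ t ∈ Icc (0 : ℝ) 1, γ t ∈ closedBall a r := fun t ht =>
      ball_subset_closedBall (hb t ht).1
    have hct : ContinuousOn (fun t => e.symm (γ t)) (Icc 0 1) :=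
      e.symm.continuousOn.comp hγ.continuousOn fun t ht => htar (hcl' t ht)
    refine ⟨hI.image_of_continuousOn hct, ?_, ?_, ?_, ?_, ?_⟩
    · exact ⟨hIne.image _, isPreconnected_Icc.image _ hct⟩
    · rintro _ ⟨t, ht, rfl⟩
      exact hballX ⟨γ t, hcl' t ht, rfl⟩
    · refine ⟨_, ⟨0, by simp, rfl⟩, ⟨1, by simp, ?_⟩⟩
      show e.symm (γ 1) = h (e.symm (γ 0))
      rw [hγ1]
      exact hsym _ (hcl' 0 (by simp))
    · rintro _ ⟨t, ht, rfl⟩ ⟨y, hy, hye⟩
      change e.symm y = h (e.symm (γ t)) at hye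
      rw [← hsym _ (hcl' t ht)] at hye
      have h1 := e.symm.injOn (htar (hcl hy)) (htar (hmaps _ (hcl' t ht))) hye
      have h2 := hlo t ht
      rw [← h1] at h2
      rw [mem_closedBall, dist_eq_norm] at hy
      exact absurd h2 (not_lt.2 hy)
    · obtain ⟨k, hk⟩ : ∃ k : ℕ, (3 / 4 : ℝ) ^ k * r < r' := by
        have h3 : Tendsto (fun k : ℕ => (3 / 4 : ℝ) ^ k * r) atTop (𝓝 (0 * r)) :=
          (tendsto_pow_atTop_nhds_zero_of_lt_one (by norm_num) (by norm_num)).mul_const _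
        rw [zero_mul] at h3
        exact (h3.eventually_lt_const hr'p).exists
      refine ⟨k, ?_⟩
      rintro _ ⟨t, ht, rfl⟩
      show h^[k] (e.symm (γ t)) ∈ B
      rw [← (hsymk k _ (hcl' t ht)).2]
      refine ⟨_, ?_, rfl⟩
      have h4 := (iter_contr hcon k _ (hcl' t ht)).2
      have h5 := hcl' t ht
      rw [mem_closedBall, dist_eq_norm] at h5 ⊢
      refine h4.trans (le_trans ?_ hk.le)
      gcongr
  have hdis : ∀ γ γ' : ℝ → EuclideanSpace ℝ (Fin n),
      (∀ t ∈ Icc (0 : ℝ) 1, γ t ∈ ball a r ∧ γ t ≠ a) →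
      (∀ t ∈ Icc (0 : ℝ) 1, γ' t ∈ ball a r ∧ γ' t ≠ a) →
      (∀ (m : ℕ), ∀ t ∈ Icc (0 : ℝ) 1, ∀ t' ∈ Icc (0 : ℝ) 1, φ^[m] (γ t) ≠ γ' t') →
      ∀ m : ℕ, ∀ x ∈ (fun t => e.symm (γ t)) '' Icc (0 : ℝ) 1,
        h^[m] x ∉ (fun t => e.symm (γ' t)) '' Icc (0 : ℝ) 1 := by
    rintro γ γ' hb hb' hdd m _ ⟨t, ht, rfl⟩ ⟨t', ht', heq⟩
    have h1 := ball_subset_closedBall (hb t ht).1
    have h2 := ball_subset_closedBall (hb' t' ht').1
    change e.symm (γ' t') = h^[m] (e.symm (γ t)) at heq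
    rw [← (hsymk m _ h1).2] at heq
    exact hdd m t ht t' ht' (e.symm.injOn (htar h2) (htar (hsymk m _ h1).1) heq).symm
  exact not_shadowing_arcs hBc hgB hpB hp hlim hXcl hXi hΛ
    (hdata γ₁ hγ₁ hb₁ hn₁ fun t ht => hr'1.trans_le (hl₁ t ht))
    (hdata γ₂ hγ₂ hb₂ hn₂ fun t ht => hr'2.trans_le (hl₂ t ht))
    (hdis γ₁ γ₂ hb₁ hb₂ hd₁) (hdis γ₂ γ₁ hb₂ hb₁ hd₂)

theorem induced_iterate (f : M → M) (hf : Continuous f) (k : ℕ) :
    (induced f hf)^[k] = induced f^[k] (hf.iterate k) := by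
  funext A
  apply Subtype.ext
  apply SetLike.coe_injective
  rw [induced_iter, induced_coe]

theorem main (hn : 1 ≤ n) [Nonempty M] (f : M ≃ₘ^1⟮𝓡 n, 𝓡 n⟯ M)
    (hfin : (NonWandering (f : M → M)).Finite)
    (hhyp : ∀ p ∈ NonWandering (f : M → M), HyperbolicPeriodic (n := n) (f : M → M) p) :
    ¬ Shadowing (induced f f.continuous) := by
  intro hsh
  have hfs : ContMDiff (𝓡 n) (𝓡 n) 1 f := f.contMDiff
  -- a common period
  choose! k hk1 hkp hkh using hhyp
  set K := ∏ p ∈ hfin.toFinset, k p with hK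
  have hK1 : 1 ≤ K := Nat.one_le_iff_ne_zero.2 (Finset.prod_ne_zero_iff.2 fun p hp =>
    Nat.one_le_iff_ne_zero.1 (hk1 p (hfin.mem_toFinset.1 hp)))
  have hKp : ∀ p ∈ NonWandering (f : M → M), ∃ m ≥ 1, K = k p * m := by
    intro p hp
    obtain ⟨m, hm⟩ := Finset.dvd_prod_of_mem k (hfin.mem_toFinset.2 hp)
    refine ⟨m, Nat.one_le_iff_ne_zero.2 fun h0 => ?_, hm⟩
    rw [← hK, h0, mul_zero] at hm
    omega
  let fh : M ≃ₜ M := f.toHomeomorph
  have hfh : (fh : M → M) = f := rfl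
  obtain ⟨p, hp, C, hC, μ, hμ0, hμ1, hA⟩ := exists_sink (n := n) (iterHomeo fh K)
    (Ω := NonWandering (f : M → M)) (contMDiff_iter hfs K) hfin
    (fun p hp => by
      obtain ⟨m, _, hm⟩ := hKp p hp
      show f^[K] p = p
      rw [hm, Function.iterate_mul]
      exact Function.iterate_fixed (hkp p hp) m)
    (fun p hp => by
      obtain ⟨m, hm1, hm⟩ := hKp p hp
      show Hyperbolic (deriv (n := n) f^[K] p)
      rw [hm, Function.iterate_mul, deriv_iter (contMDiff_iter hfs _) (hkp p hp)]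
      exact (hkh p hp).pow hm1)
    (fun U hU hΩU x => eventually_near hU hΩU hK1 x)
  obtain ⟨m, _, hm⟩ := hKp p hp
  have hpK : f^[K] p = p := by
    rw [hm, Function.iterate_mul]
    exact Function.iterate_fixed (hkp p hp) m
  obtain ⟨N, hN1, hN⟩ : ∃ N : ℕ, 1 ≤ N ∧ C * μ ^ (2 * N) < 1 / 2 := by
    have h5 : Tendsto (fun k : ℕ => C * μ ^ k) atTop (𝓝 (C * 0)) :=
      (tendsto_pow_atTop_nhds_zero_of_lt_one hμ0.le hμ1).const_mul C
    rw [mul_zero] at h5
    obtain ⟨N₀, hN₀⟩ := eventually_atTop.1 (h5.eventually_lt_const (show (0 : ℝ) < 1 / 2 by norm_num))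
    exact ⟨N₀ + 1, by omega, hN₀ _ (by omega)⟩
  have hA' : ∀ k : ℕ, ∀ v, ‖((deriv (n := n) f^[K] p) ^ k) v‖ ≤ C * μ ^ k * ‖v‖ := hA
  -- the good iterate
  have hL1 : 1 ≤ K * (2 * N) := Nat.one_le_iff_ne_zero.2 (Nat.mul_ne_zero (by omega) (by omega))
  have hpL : f^[K * (2 * N)] p = p := by
    rw [Function.iterate_mul]
    exact Function.iterate_fixed hpK _
  have hdL : deriv (n := n) f^[K * (2 * N)] p = (deriv (n := n) f^[K] p) ^ (2 * N) := by
    rw [Function.iterate_mul]
    exact deriv_iter (contMDiff_iter hfs K) hpK _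
  refine sink_not_shadowing hn (iterHomeo fh (K * (2 * N))) (contMDiff_iter hfs _) hpL
    (C := (deriv (n := n) f^[K] p) ^ N) ?_ ?_ ?_ ?_
  · -- injectivity
    have h1 : deriv (n := n) f^[K * N] p = (deriv (n := n) f^[K] p) ^ N := by
      rw [Function.iterate_mul]
      exact deriv_iter (contMDiff_iter hfs K) hpK _
    rw [← h1]
    have hpN : f^[K * N] p = p := by
      rw [Function.iterate_mul]
      exact Function.iterate_fixed hpK _
    have hs : ContMDiff (𝓡 n) (𝓡 n) 1 f.symm := f.symm.contMDiff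
    have h2 := deriv_comp (n := n) (contMDiff_iter hs (K * N)) (contMDiff_iter hfs (K * N)) hpN
    have h3 : (fun x => f.symm^[K * N] (f^[K * N] x)) = id := by
      funext x
      exact (Function.LeftInverse.iterate f.symm_apply_apply (K * N)) x
    rw [h3, deriv_id] at h2
    intro v hv
    have h4 := congrArg (fun T : EuclideanSpace ℝ (Fin n) →L[ℝ] EuclideanSpace ℝ (Fin n) => T v) h2
    change v = (deriv (n := n) f.symm^[K * N] p) ((deriv (n := n) f^[K * N] p) v) at h4
    rw [hv, map_zero] at h4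
    exact h4
  · intro v
    show (deriv (n := n) f^[K * (2 * N)] p) v = _
    rw [hdL, two_mul, pow_add]
    rfl
  · intro v
    show ‖(deriv (n := n) f^[K * (2 * N)] p) v‖ ≤ _
    rw [hdL]
    exact (hA' _ v).trans (mul_le_mul_of_nonneg_right hN.le (norm_nonneg _))
  · have h1 := hsh.iterate hL1
    rw [induced_iterate] at h1
    exact h1

end Pool.Agent.X84.Hs
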