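import Mathlib

/-!
# A closed connected one-dimensional manifold stays connected when an arc is removed
-/

open Set Filter Topology

set_option autoImplicit false
set_option linter.unusedSectionVars false

noncomputable section

namespace Pool.Agent.X84.Hs

variable {M : Type*} [TopologicalSpace M] [T2Space M]

/-- `γ` restricted to `[-1,1]` is an arc in `X₀`, and the image of `(-1,1)` is open -/
structure IsArc (X₀ : Set M) (γ : ℝ → M) : Prop where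
  cont : ContinuousOn γ (Icc (-1) 1)
  inj : InjOn γ (Icc (-1) 1)
  opn : IsOpen (γ '' Ioo (-1) 1)
  sub : γ '' Icc (-1) 1 ⊆ X₀

variable {X₀ : Set M} {γ : ℝ → M}

theorem IsArc.left_mem (h : IsArc X₀ γ) : γ (-1) ∈ X₀ \ γ '' Ioo (-1) 1 := by
  refine ⟨h.sub ⟨-1, by norm_num, rfl⟩, ?_⟩
  rintro ⟨s, hs, he⟩
  have := h.inj (Ioo_subset_Icc_self hs) (by norm_num : (-1 : ℝ) ∈ Icc (-1 : ℝ) 1) he
  rw [this] at hs
  exact lt_irrefl _ hs.1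

theorem IsArc.right_mem (h : IsArc X₀ γ) : γ 1 ∈ X₀ \ γ '' Ioo (-1) 1 := by
  refine ⟨h.sub ⟨1, by norm_num, rfl⟩, ?_⟩
  rintro ⟨s, hs, he⟩
  have := h.inj (Ioo_subset_Icc_self hs) (by norm_num : (1 : ℝ) ∈ Icc (-1 : ℝ) 1) he
  rw [this] at hs
  exact lt_irrefl _ hs.2

theorem IsArc.closed (h : IsArc X₀ γ) {l r : ℝ} (hl : -1 ≤ l) (hr : r ≤ 1) :
    IsClosed (γ '' Icc l r) :=
  (isCompact_Icc.image_of_continuousOn (h.cont.mono (Icc_subset_Icc hl hr))).isClosed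

theorem IsArc.aux (h : IsArc X₀ γ) (hX : IsPreconnected X₀) (hXc : IsClosed X₀) {t : ℝ}
    (ht : t ∈ Ioo (-1 : ℝ) 1) (hx : IsPreconnected (X₀ \ {γ t})) {T T' : Set M} (hT : IsClosed T)
    (hT' : IsClosed T') (hcov : X₀ \ γ '' Ioo (-1) 1 ⊆ T ∪ T')
    (hne : ((X₀ \ γ '' Ioo (-1) 1) ∩ T).Nonempty) (hne' : ((X₀ \ γ '' Ioo (-1) 1) ∩ T').Nonempty)
    (ha : γ (-1) ∈ T) : ((X₀ \ γ '' Ioo (-1) 1) ∩ (T ∩ T')).Nonempty := by
  by_contra hno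
  set K := X₀ \ γ '' Ioo (-1) 1 with hK
  have hKc : IsClosed K := hXc.inter h.opn.isClosed_compl
  have hno' : ∀ z ∈ K, z ∈ T → z ∈ T' → False := fun z hz h1 h2 => hno ⟨z, hz, h1, h2⟩
  have haK := h.left_mem
  have hbK := h.right_mem
  obtain ⟨x, hxK, hxT⟩ := hne
  obtain ⟨y, hyK, hyT'⟩ := hne'
  have hend : ∀ s ∈ Icc (-1 : ℝ) 1, γ s ∈ K → s = -1 ∨ s = 1 := by
    intro s hs hsK
    by_contra hcon
    push Not at hcon
    exact hsK.2 ⟨s, ⟨lt_of_le_of_ne hs.1 hcon.1.symm, lt_of_le_of_ne hs.2 hcon.2⟩, rfl⟩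
  by_cases hb : γ 1 ∈ T
  · obtain ⟨z, hzX, hz1, hz2⟩ := (isPreconnected_closed_iff.1 hX) (K ∩ T ∪ γ '' Icc (-1) 1)
      (K ∩ T') ((hKc.inter hT).union (h.closed le_rfl le_rfl)) (hKc.inter hT') (by
        intro z hz
        by_cases hz' : z ∈ γ '' Ioo (-1) 1
        · exact Or.inl (Or.inr (image_mono Ioo_subset_Icc_self hz'))
        · rcases hcov ⟨hz, hz'⟩ with h3 | h3
          · exact Or.inl (Or.inl ⟨⟨hz, hz'⟩, h3⟩)
          · exact Or.inr ⟨⟨hz, hz'⟩, h3⟩) ⟨x, hxK.1, Or.inl ⟨hxK, hxT⟩⟩ ⟨y, hyK.1, hyK, hyT'⟩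
    rcases hz1 with hz1 | ⟨s, hs, rfl⟩
    · exact hno' z hz2.1 hz1.2 hz2.2
    · rcases hend s hs hz2.1 with rfl | rfl
      · exact hno' _ haK ha hz2.2
      · exact hno' _ hbK hb hz2.2
  · have hb' : γ 1 ∈ T' := (hcov hbK).resolve_left hb
    have hKt : ∀ z ∈ K, z ≠ γ t := fun z hz he => hz.2 ⟨t, ht, he.symm⟩
    obtain ⟨z, ⟨hzX, hzt⟩, hz1, hz2⟩ := (isPreconnected_closed_iff.1 hx)
      (K ∩ T ∪ γ '' Icc (-1) t) (K ∩ T' ∪ γ '' Icc t 1)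
      ((hKc.inter hT).union (h.closed le_rfl ht.2.le))
      ((hKc.inter hT').union (h.closed ht.1.le le_rfl)) (by
        rintro z ⟨hz, _⟩
        by_cases hz' : z ∈ γ '' Ioo (-1) 1
        · obtain ⟨s, hs, rfl⟩ := hz'
          rcases le_total s t with hst | hst
          · exact Or.inl (Or.inr ⟨s, ⟨hs.1.le, hst⟩, rfl⟩)
          · exact Or.inr (Or.inr ⟨s, ⟨hst, hs.2.le⟩, rfl⟩)
        · rcases hcov ⟨hz, hz'⟩ with h3 | h3
          · exact Or.inl (Or.inl ⟨⟨hz, hz'⟩, h3⟩)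
          · exact Or.inr (Or.inl ⟨⟨hz, hz'⟩, h3⟩))
      ⟨x, ⟨hxK.1, hKt x hxK⟩, Or.inl ⟨hxK, hxT⟩⟩ ⟨y, ⟨hyK.1, hKt y hyK⟩, Or.inl ⟨hyK, hyT'⟩⟩
    rcases hz1 with hz1 | ⟨s, hs, rfl⟩
    · rcases hz2 with hz2 | ⟨s, hs, rfl⟩
      · exact hno' z hz1.1 hz1.2 hz2.2
      · rcases hend s ⟨ht.1.le.trans hs.1, hs.2⟩ hz1.1 with rfl | rfl
        · exact absurd hs.1 (not_le.2 ht.1)
        · exact hb hz1.2
    · rcases hz2 with hz2 | ⟨s', hs', he⟩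
      · rcases hend s ⟨hs.1, hs.2.trans ht.2.le⟩ hz2.1 with rfl | rfl
        · exact hno' _ haK ha hz2.2
        · exact absurd hs.2 (not_le.2 ht.2)
      · have h4 := h.inj ⟨ht.1.le.trans hs'.1, hs'.2⟩ ⟨hs.1, hs.2.trans ht.2.le⟩ he
        have h5 : s = t := le_antisymm hs.2 (h4 ▸ hs'.1)
        exact hzt (by rw [h5]; rfl)

theorem IsArc.remove (h : IsArc X₀ γ) (hX : IsPreconnected X₀) (hXc : IsClosed X₀) {t : ℝ}
    (ht : t ∈ Ioo (-1 : ℝ) 1) (hx : IsPreconnected (X₀ \ {γ t})) :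
    IsPreconnected (X₀ \ γ '' Ioo (-1) 1) := by
  rw [isPreconnected_closed_iff]
  intro T T' hT hT' hcov hne hne'
  rcases hcov h.left_mem with ha | ha
  · exact h.aux hX hXc ht hx hT hT' hcov hne hne' ha
  · have := h.aux hX hXc ht hx hT' hT (by rwa [union_comm]) hne' hne ha
    rwa [inter_comm T' T] at this

/-- the union of a preconnected set containing the ends of an arc and of the two halves -/
theorem IsArc.halves (h : IsArc X₀ γ) {U : Set M} (hU : IsPreconnected U) (ha : γ (-1) ∈ U)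
    (hb : γ 1 ∈ U) {t : ℝ} (ht : t ∈ Ioo (-1 : ℝ) 1) :
    IsPreconnected (U ∪ γ '' Ico (-1) t ∪ γ '' Ioc t 1) := by
  have h1 : IsPreconnected (γ '' Ico (-1) t) := isPreconnected_Ico.image _
    (h.cont.mono fun s hs => ⟨hs.1, hs.2.le.trans ht.2.le⟩)
  have h2 : IsPreconnected (γ '' Ioc t 1) := isPreconnected_Ioc.image _
    (h.cont.mono fun s hs => ⟨ht.1.le.trans hs.1.le, hs.2⟩)
  refine IsPreconnected.union (γ 1) (Or.inl hb) ⟨1, ⟨ht.2, le_rfl⟩, rfl⟩ ?_ h2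
  exact IsPreconnected.union (γ (-1)) ha ⟨-1, ⟨le_rfl, ht.1⟩, rfl⟩ hU h1

theorem IsArc.add (h : IsArc X₀ γ) (hK : IsPreconnected (X₀ \ γ '' Ioo (-1) 1)) {t : ℝ}
    (ht : t ∈ Ioo (-1 : ℝ) 1) : IsPreconnected (X₀ \ {γ t}) := by
  have h1 := h.halves hK h.left_mem h.right_mem ht
  have h2 : X₀ \ {γ t} = (X₀ \ γ '' Ioo (-1) 1) ∪ γ '' Ico (-1) t ∪ γ '' Ioc t 1 := by
    ext z
    constructor
    · rintro ⟨hz, hzt⟩
      by_cases hz' : z ∈ γ '' Ioo (-1) 1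
      · obtain ⟨s, hs, rfl⟩ := hz'
        rcases lt_trichotomy s t with hst | hst | hst
        · exact Or.inl (Or.inr ⟨s, ⟨hs.1.le, hst⟩, rfl⟩)
        · exact absurd (by rw [hst]; rfl) hzt
        · exact Or.inr ⟨s, ⟨hst, hs.2.le⟩, rfl⟩
      · exact Or.inl (Or.inl ⟨hz, hz'⟩)
    · rintro ((⟨hz, hz'⟩ | ⟨s, hs, rfl⟩) | ⟨s, hs, rfl⟩)
      · exact ⟨hz, fun he => hz' ⟨t, ht, he.symm⟩⟩
      · refine ⟨h.sub ⟨s, ⟨hs.1, hs.2.le.trans ht.2.le⟩, rfl⟩, fun he => ?_⟩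
        have := h.inj ⟨hs.1, hs.2.le.trans ht.2.le⟩ (Ioo_subset_Icc_self ht) he
        rw [this] at hs
        exact lt_irrefl _ hs.2
      · refine ⟨h.sub ⟨s, ⟨ht.1.le.trans hs.1.le, hs.2⟩, rfl⟩, fun he => ?_⟩
        have := h.inj ⟨ht.1.le.trans hs.1.le, hs.2⟩ (Ioo_subset_Icc_self ht) he
        rw [this] at hs
        exact lt_irrefl _ hs.1
  rw [h2]
  exact h1

/-- there is a point whose complement is connected -/
theorem exists_noncut (hX : IsConnected X₀) (hXc : IsCompact X₀)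
    (harc : ∀ x ∈ X₀, ∃ γ, IsArc X₀ γ ∧ x ∈ γ '' Ioo (-1) 1) :
    ∃ γ t, IsArc X₀ γ ∧ t ∈ Ioo (-1 : ℝ) 1 ∧ IsPreconnected (X₀ \ {γ t}) := by
  classical
  -- a finite cover of minimal cardinality
  have hex : ∃ k : ℕ, ∃ F : Finset (ℝ → M), F.card = k ∧ (∀ γ ∈ F, IsArc X₀ γ) ∧
      X₀ ⊆ ⋃ γ ∈ F, γ '' Ioo (-1) 1 := by
    choose! G hG hxG using harc
    obtain ⟨t, ht⟩ := hXc.elim_nhds_subcover' (fun x _ => G x '' Ioo (-1) 1)
      (fun x hx => (hG x hx).opn.mem_nhds (hxG x hx))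
    refine ⟨_, t.image (fun x : X₀ => G (x : M)), rfl, ?_, ?_⟩
    · intro γ hγ
      obtain ⟨x, _, rfl⟩ := Finset.mem_image.1 hγ
      exact hG x x.2
    · intro z hz
      obtain ⟨x, hx, hzx⟩ := mem_iUnion₂.1 (ht hz)
      exact mem_iUnion₂.2 ⟨G x, Finset.mem_image.2 ⟨x, hx, rfl⟩, hzx⟩
  obtain ⟨F, hFc, hF, hFcov⟩ := Nat.find_spec hex
  have hmin : ∀ F' : Finset (ℝ → M), (∀ γ ∈ F', IsArc X₀ γ) → X₀ ⊆ ⋃ γ ∈ F', γ '' Ioo (-1) 1 →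
      F.card ≤ F'.card := by
    intro F' h1 h2
    rw [hFc]
    exact Nat.find_min' hex ⟨F', rfl, h1, h2⟩
  let U : Finset (ℝ → M) → Set M := fun S => ⋃ γ ∈ S, γ '' Ioo (-1) 1
  have hUo : ∀ S, S ⊆ F → IsOpen (U S) := fun S hS =>
    isOpen_biUnion fun γ hγ => (hF γ (hS hγ)).opn
  have hIoo : IsPreconnected (Ioo (-1 : ℝ) 1) := isPreconnected_Ioo
  have hpre1 : ∀ γ ∈ F, IsPreconnected (γ '' Ioo (-1) 1) := fun γ hγ =>
    hIoo.image _ ((hF γ hγ).cont.mono Ioo_subset_Icc_self)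
  have hmemU : ∀ S (γ : ℝ → M), γ ∈ S → γ '' Ioo (-1) 1 ⊆ U S := fun S γ hγ =>
    subset_biUnion_of_mem (u := fun γ : ℝ → M => γ '' Ioo (-1) 1) (show γ ∈ (S : Set (ℝ → M)) from hγ)
  obtain ⟨x₀, hx₀⟩ := hX.nonempty
  obtain ⟨γ₀, hγ₀, _⟩ := mem_iUnion₂.1 (hFcov hx₀)
  have hF1 : {γ₀} ≠ F := by
    intro h
    have h1 := (hF γ₀ hγ₀).right_mem
    have h2 := hFcov h1.1
    rw [← h] at h2
    simp only [Finset.mem_singleton, iUnion_iUnion_eq_left] at h2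
    exact h1.2 h2
  let P : Finset (Finset (ℝ → M)) :=
    F.powerset.filter fun S => S.Nonempty ∧ S ≠ F ∧ IsPreconnected (U S)
  have hP : P.Nonempty := by
    refine ⟨{γ₀}, Finset.mem_filter.2 ⟨Finset.mem_powerset.2 (by simpa using hγ₀), by simp, hF1, ?_⟩⟩
    have : U {γ₀} = γ₀ '' Ioo (-1) 1 := by simp [U]
    rw [this]
    exact hpre1 γ₀ hγ₀
  obtain ⟨S, hS, hSmax⟩ := P.exists_max_image Finset.card hP
  obtain ⟨hSF, hSne, hSF', hSp⟩ := Finset.mem_filter.1 hS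
  rw [Finset.mem_powerset] at hSF
  -- an arc meeting the union
  obtain ⟨γ₁, hγ₁⟩ := hSne
  obtain ⟨γ₂, hγ₂, hγ₂S⟩ : ∃ γ ∈ F, γ ∉ S := by
    by_contra h
    push Not at h
    exact hSF' (Finset.Subset.antisymm hSF h)
  have hmid : ∀ γ ∈ F, (X₀ ∩ γ '' Ioo (-1) 1).Nonempty := fun γ hγ =>
    ⟨γ 0, (hF γ hγ).sub ⟨0, by norm_num, rfl⟩, ⟨0, by norm_num, rfl⟩⟩
  obtain ⟨z, hzX, hzS, hzF⟩ := hX.isPreconnected (U S) (U (F \ S)) (hUo S hSF)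
    (hUo _ Finset.sdiff_subset) (by
      intro z hz
      obtain ⟨γ, hγ, hzγ⟩ := mem_iUnion₂.1 (hFcov hz)
      by_cases hγS : γ ∈ S
      · exact Or.inl (hmemU S γ hγS hzγ)
      · exact Or.inr (hmemU _ γ (Finset.mem_sdiff.2 ⟨hγ, hγS⟩) hzγ))
    ((hmid γ₁ (hSF hγ₁)).mono (inter_subset_inter_right _ (hmemU S γ₁ hγ₁)))
    ((hmid γ₂ hγ₂).mono (inter_subset_inter_right _
      (hmemU _ γ₂ (Finset.mem_sdiff.2 ⟨hγ₂, hγ₂S⟩))))
  obtain ⟨γ, hγ, hzγ⟩ := mem_iUnion₂.1 hzF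
  obtain ⟨hγF, hγS⟩ := Finset.mem_sdiff.1 hγ
  have hUins : U (insert γ S) = γ '' Ioo (-1) 1 ∪ U S := by
    simp only [U, Finset.set_biUnion_insert]
  have hFS : insert γ S = F := by
    by_contra hne
    have h1 : insert γ S ∈ P := by
      refine Finset.mem_filter.2 ⟨Finset.mem_powerset.2 (Finset.insert_subset hγF hSF),
        Finset.insert_nonempty _ _, hne, ?_⟩
      rw [hUins]
      exact IsPreconnected.union z hzγ hzS (hpre1 γ hγF) hSp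
    have h2 := hSmax _ h1
    rw [Finset.card_insert_of_notMem hγS] at h2
    omega
  have hcov' : X₀ ⊆ γ '' Ioo (-1) 1 ∪ U S := by
    rw [← hUins, hFS]
    exact hFcov
  have hnot : ¬ γ '' Ioo (-1) 1 ⊆ U S := by
    intro h
    have h1 := hmin S (fun γ' hγ' => hF γ' (hSF hγ')) (fun x hx => (hcov' hx).elim (fun h2 => h h2) id)
    rw [← hFS, Finset.card_insert_of_notMem hγS] at h1
    omega
  obtain ⟨_, ⟨t, ht, rfl⟩, htU⟩ := not_subset.1 hnot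
  have hA := hF γ hγF
  refine ⟨γ, t, hA, ht, ?_⟩
  have haU : γ (-1) ∈ U S := (hcov' hA.left_mem.1).resolve_left hA.left_mem.2
  have hbU : γ 1 ∈ U S := (hcov' hA.right_mem.1).resolve_left hA.right_mem.2
  have h1 := hA.halves hSp haU hbU ht
  have hUX : U S ⊆ X₀ := iUnion₂_subset fun γ' hγ' =>
    (image_mono Ioo_subset_Icc_self).trans (hF γ' (hSF hγ')).sub
  have h2 : X₀ \ {γ t} = U S ∪ γ '' Ico (-1) t ∪ γ '' Ioc t 1 := by
    ext z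
    constructor
    · rintro ⟨hz, hzt⟩
      rcases hcov' hz with ⟨s, hs, rfl⟩ | hz'
      · rcases lt_trichotomy s t with hst | hst | hst
        · exact Or.inl (Or.inr ⟨s, ⟨hs.1.le, hst⟩, rfl⟩)
        · exact absurd (by rw [hst]; rfl) hzt
        · exact Or.inr ⟨s, ⟨hst, hs.2.le⟩, rfl⟩
      · exact Or.inl (Or.inl hz')
    · rintro ((hz | ⟨s, hs, rfl⟩) | ⟨s, hs, rfl⟩)
      · refine ⟨hUX hz, fun he => htU ?_⟩
        rw [mem_singleton_iff] at he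
        rwa [← he]
      · refine ⟨hA.sub ⟨s, ⟨hs.1, hs.2.le.trans ht.2.le⟩, rfl⟩, fun he => ?_⟩
        have := hA.inj ⟨hs.1, hs.2.le.trans ht.2.le⟩ (Ioo_subset_Icc_self ht) he
        rw [this] at hs
        exact lt_irrefl _ hs.2
      · refine ⟨hA.sub ⟨s, ⟨ht.1.le.trans hs.1.le, hs.2⟩, rfl⟩, fun he => ?_⟩
        have := hA.inj ⟨ht.1.le.trans hs.1.le, hs.2⟩ (Ioo_subset_Icc_self ht) he
        rw [this] at hs
        exact lt_irrefl _ hs.1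
  rw [h2]
  exact h1

/-- the complement of every arc is connected -/
theorem remove_arc (hX : IsConnected X₀) (hXc : IsCompact X₀)
    (harc : ∀ x ∈ X₀, ∃ γ, IsArc X₀ γ ∧ x ∈ γ '' Ioo (-1) 1) (hγ : IsArc X₀ γ) :
    IsPreconnected (X₀ \ γ '' Ioo (-1) 1) := by
  obtain ⟨γ₀, t₀, hγ₀, ht₀, hn⟩ := exists_noncut hX hXc harc
  have hXcl : IsClosed X₀ := hXc.isClosed
  by_contra hbad
  have hgood := hγ₀.remove hX.isPreconnected hXcl ht₀ hn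
  let U : Set M := ⋃ (γ : ℝ → M) (_ : IsArc X₀ γ ∧ IsPreconnected (X₀ \ γ '' Ioo (-1) 1)),
    γ '' Ioo (-1) 1
  let V : Set M := ⋃ (γ : ℝ → M) (_ : IsArc X₀ γ ∧ ¬ IsPreconnected (X₀ \ γ '' Ioo (-1) 1)),
    γ '' Ioo (-1) 1
  have hUo : IsOpen U := isOpen_iUnion fun γ => isOpen_iUnion fun h => h.1.opn
  have hVo : IsOpen V := isOpen_iUnion fun γ => isOpen_iUnion fun h => h.1.opn
  obtain ⟨z, hzX, hzU, hzV⟩ := hX.isPreconnected U V hUo hVo (by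
      intro x hx
      obtain ⟨γ', h1, h2⟩ := harc x hx
      by_cases h3 : IsPreconnected (X₀ \ γ' '' Ioo (-1) 1)
      · exact Or.inl (mem_iUnion₂.2 ⟨γ', ⟨h1, h3⟩, h2⟩)
      · exact Or.inr (mem_iUnion₂.2 ⟨γ', ⟨h1, h3⟩, h2⟩))
    ⟨γ₀ 0, hγ₀.sub ⟨0, by norm_num, rfl⟩, mem_iUnion₂.2 ⟨γ₀, ⟨hγ₀, hgood⟩, ⟨0, by norm_num, rfl⟩⟩⟩
    ⟨γ 0, hγ.sub ⟨0, by norm_num, rfl⟩, mem_iUnion₂.2 ⟨γ, ⟨hγ, hbad⟩, ⟨0, by norm_num, rfl⟩⟩⟩
  obtain ⟨γ', ⟨h1, h2⟩, s, hs, he⟩ := mem_iUnion₂.1 hzU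
  obtain ⟨γ'', ⟨h3, h4⟩, s', hs', he'⟩ := mem_iUnion₂.1 hzV
  have h5 := h1.add h2 hs
  rw [he, ← he'] at h5
  exact h4 (h3.remove hX.isPreconnected hXcl hs' h5)

end Pool.Agent.X84.Hs
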