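import Mathlib

/-!
# The points whose forward orbit stays near a fixed point with an expanding direction
-/

open Set Metric Filter Topology

set_option autoImplicit false
set_option linter.unusedSectionVars false

noncomputable section

namespace Pool.Agent.X84.Hs

variable {E : Type*} [NormedAddCommGroup E] [NormedSpace ℝ E]

/-- `A` is hyperbolic: `E = Eˢ ⊕ Eᵘ` with `Eˢ`, `Eᵘ` invariant under `A`, and with `C > 0` and
`0 < μ < 1` such that `‖Aᵏ v‖ ≤ C μᵏ ‖v‖` on `Eˢ` and `‖v‖ ≤ C μᵏ ‖Aᵏ v‖` on `Eᵘ` for all `k`. -/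
def Hyperbolic (A : E →L[ℝ] E) : Prop :=
  ∃ Es Eu : Submodule ℝ E, IsCompl Es Eu ∧ (∀ v ∈ Es, A v ∈ Es) ∧ (∀ v ∈ Eu, A v ∈ Eu) ∧
    ∃ C > 0, ∃ μ : ℝ, 0 < μ ∧ μ < 1 ∧ (∀ k : ℕ, ∀ v ∈ Es, ‖(A ^ k) v‖ ≤ C * μ ^ k * ‖v‖) ∧
      ∀ k : ℕ, ∀ v ∈ Eu, ‖v‖ ≤ C * μ ^ k * ‖(A ^ k) v‖

theorem pow_mem {A : E →L[ℝ] E} {F : Submodule ℝ E} (h : ∀ v ∈ F, A v ∈ F) (k : ℕ) :
    ∀ v ∈ F, (A ^ k) v ∈ F := by
  induction k with
  | zero => exact fun v hv => hv
  | succ k ih =>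
    intro v hv
    rw [pow_succ, mul_apply_eq_comp]
    exact ih _ (h v hv)

theorem Hyperbolic.pow {A : E →L[ℝ] E} (h : Hyperbolic A) {m : ℕ} (hm : 1 ≤ m) :
    Hyperbolic (A ^ m) := by
  obtain ⟨Es, Eu, hc, h1, h2, C, hC, μ, hμ0, hμ1, h3, h4⟩ := h
  refine ⟨Es, Eu, hc, pow_mem h1 m, pow_mem h2 m, C, hC, μ ^ m, pow_pos hμ0 m,
    pow_lt_one₀ hμ0.le hμ1 (by omega), fun k v hv => ?_, fun k v hv => ?_⟩
  · rw [← pow_mul, ← pow_mul]
    exact h3 _ v hv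
  · rw [← pow_mul, ← pow_mul]
    exact h4 _ v hv

variable [FiniteDimensional ℝ E]

/-- the forward orbits near a fixed point with an expanding direction fill no open set -/
theorem saddle_core {ψ : E → E} {B : E →L[ℝ] E} {a : E} (hψ : HasStrictFDerivAt ψ B a)
    {Es Eu : Submodule ℝ E} (hc : IsCompl Es Eu) (h1 : ∀ v ∈ Es, B v ∈ Es)
    (h2 : ∀ v ∈ Eu, B v ∈ Eu) (h3 : ∀ v ∈ Es, ‖B v‖ ≤ 1 / 10 * ‖v‖)
    (h4 : ∀ v ∈ Eu, 10 * ‖v‖ ≤ ‖B v‖) (hne : Eu ≠ ⊥) :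
    ∃ r > 0, ∀ S : Set E, S ⊆ closedBall a r → (∀ x ∈ S, ψ x ∈ S) → interior S = ∅ := by
  let Ps : E →L[ℝ] E := LinearMap.toContinuousLinearMap (Es.projection Eu hc)
  let Pu : E →L[ℝ] E := LinearMap.toContinuousLinearMap (Eu.projection Es hc.symm)
  have hPs : ∀ v, Ps v ∈ Es := fun v => Submodule.projection_apply_mem hc v
  have hPu : ∀ v, Pu v ∈ Eu := fun v => Submodule.projection_apply_mem hc.symm v
  have hsum : ∀ v, Ps v + Pu v = v := fun v => Submodule.projection_add_projection_eq_self hc v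
  have hPuu : ∀ v ∈ Eu, Pu v = v := fun v hv =>
    Submodule.projection_apply_of_mem_left hc.symm hv
  have hPus : ∀ v ∈ Es, Pu v = 0 := fun v hv =>
    (Submodule.projection_apply_eq_zero_iff hc.symm).2 hv
  have hPss : ∀ v ∈ Es, Ps v = v := fun v hv => Submodule.projection_apply_of_mem_left hc hv
  have hPsu : ∀ v ∈ Eu, Ps v = 0 := fun v hv =>
    (Submodule.projection_apply_eq_zero_iff hc).2 hv
  have hcomu : ∀ v, Pu (B v) = B (Pu v) := by
    intro v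
    conv_lhs => rw [← hsum v, map_add, map_add, hPus _ (h1 _ (hPs v)), hPuu _ (h2 _ (hPu v))]
    rw [zero_add]
  have hcoms : ∀ v, Ps (B v) = B (Ps v) := by
    intro v
    conv_lhs => rw [← hsum v, map_add, map_add, hPss _ (h1 _ (hPs v)), hPsu _ (h2 _ (hPu v))]
    rw [add_zero]
  set K := max ‖Ps‖ ‖Pu‖ + 1 with hK
  have hKp : 0 < K := by
    have : 0 ≤ max ‖Ps‖ ‖Pu‖ := (norm_nonneg _).trans (le_max_left _ _)
    linarith
  have hKs : ∀ v, ‖Ps v‖ ≤ K * ‖v‖ := fun v =>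
    (Ps.le_opNorm v).trans (mul_le_mul_of_nonneg_right
      ((le_max_left _ _).trans (by rw [hK]; linarith)) (norm_nonneg _))
  have hKu : ∀ v, ‖Pu v‖ ≤ K * ‖v‖ := fun v =>
    (Pu.le_opNorm v).trans (mul_le_mul_of_nonneg_right
      ((le_max_right _ _).trans (by rw [hK]; linarith)) (norm_nonneg _))
  set η := 1 / (2 * K) with hη
  have hηp : 0 < η := by positivity
  have hKη : K * η = 1 / 2 := by
    rw [hη]
    field_simp
  have hst := hψ.isLittleO.def hηp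
  obtain ⟨r, hr, hrs⟩ : ∃ r > 0, ∀ x ∈ closedBall a r, ∀ y ∈ closedBall a r,
      ‖ψ x - ψ y - B (x - y)‖ ≤ η * ‖x - y‖ := by
    rw [nhds_prod_eq] at hst
    obtain ⟨r, hr, h⟩ := (Metric.nhds_basis_closedBall.prod_self).eventually_iff.1 hst
    exact ⟨r, hr, fun x hx y hy => h (x := (x, y)) ⟨hx, hy⟩⟩
  refine ⟨r, hr, fun S hS hψS => ?_⟩
  -- one step in the cone
  have step : ∀ x ∈ S, ∀ y ∈ S, ‖Ps (x - y)‖ ≤ ‖Pu (x - y)‖ →
      ‖Ps (ψ x - ψ y)‖ ≤ ‖Pu (ψ x - ψ y)‖ ∧ 2 * ‖Pu (x - y)‖ ≤ ‖Pu (ψ x - ψ y)‖ := by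
    intro x hx y hy hcone
    set d := x - y with hd
    set e := ψ x - ψ y - B d with he
    have hee : ‖e‖ ≤ η * ‖d‖ := hrs x (hS hx) y (hS hy)
    have hdd : ‖d‖ ≤ 2 * ‖Pu d‖ := by
      have h5 : ‖d‖ ≤ ‖Ps d‖ + ‖Pu d‖ := by
        conv_lhs => rw [← hsum d]
        exact norm_add_le _ _
      linarith
    have heq : ψ x - ψ y = B d + e := by
      rw [he]
      abel
    have hue : ‖Pu e‖ ≤ ‖Pu d‖ := by
      calc ‖Pu e‖ ≤ K * ‖e‖ := hKu e
        _ ≤ K * (η * ‖d‖) := mul_le_mul_of_nonneg_left hee hKp.le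
        _ = 1 / 2 * ‖d‖ := by rw [← mul_assoc, hKη]
        _ ≤ ‖Pu d‖ := by linarith
    have hse : ‖Ps e‖ ≤ ‖Pu d‖ := by
      calc ‖Ps e‖ ≤ K * ‖e‖ := hKs e
        _ ≤ K * (η * ‖d‖) := mul_le_mul_of_nonneg_left hee hKp.le
        _ = 1 / 2 * ‖d‖ := by rw [← mul_assoc, hKη]
        _ ≤ ‖Pu d‖ := by linarith
    have h5 : 9 * ‖Pu d‖ ≤ ‖Pu (ψ x - ψ y)‖ := by
      have h6 : B (Pu d) = Pu (ψ x - ψ y) - Pu e := by
        rw [heq, map_add, hcomu]
        abel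
      have h7 := h4 _ (hPu d)
      rw [h6] at h7
      have h8 := norm_sub_le (Pu (ψ x - ψ y)) (Pu e)
      linarith
    have h9 : ‖Ps (ψ x - ψ y)‖ ≤ 2 * ‖Pu d‖ := by
      have h6 : Ps (ψ x - ψ y) = B (Ps d) + Ps e := by
        rw [heq, map_add, hcoms]
      rw [h6]
      have h7 := h3 _ (hPs d)
      have h8 := norm_add_le (B (Ps d)) (Ps e)
      have h10 := norm_nonneg (Pu d)
      linarith
    have h10 := norm_nonneg (Pu d)
    exact ⟨by linarith, by linarith⟩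
  have steps : ∀ k : ℕ, ∀ x ∈ S, ∀ y ∈ S, ‖Ps (x - y)‖ ≤ ‖Pu (x - y)‖ →
      2 ^ k * ‖Pu (x - y)‖ ≤ K * (2 * r) := by
    intro k
    induction k with
    | zero =>
      intro x hx y hy _
      rw [pow_zero, one_mul]
      refine (hKu _).trans (mul_le_mul_of_nonneg_left ?_ hKp.le)
      have h5 := hS hx
      have h6 := hS hy
      rw [mem_closedBall, dist_eq_norm] at h5 h6
      have h7 : x - y = (x - a) - (y - a) := by abel
      rw [h7]
      exact (norm_sub_le _ _).trans (by linarith)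
    | succ k ih =>
      intro x hx y hy hcone
      obtain ⟨h5, h6⟩ := step x hx y hy hcone
      have h7 := ih _ (hψS x hx) _ (hψS y hy) h5
      calc 2 ^ (k + 1) * ‖Pu (x - y)‖ = 2 ^ k * (2 * ‖Pu (x - y)‖) := by ring
        _ ≤ 2 ^ k * ‖Pu (ψ x - ψ y)‖ := by gcongr
        _ ≤ _ := h7
  by_contra hint
  obtain ⟨x, hx⟩ := nonempty_iff_ne_empty.2 hint
  obtain ⟨u, huE, hu0⟩ := Submodule.exists_mem_ne_zero_of_ne_bot hne
  have hcont : Tendsto (fun s : ℝ => x + s • u) (𝓝[>] 0) (𝓝 x) := by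
    have : Tendsto (fun s : ℝ => x + s • u) (𝓝 0) (𝓝 (x + (0 : ℝ) • u)) :=
      (continuous_const.add (continuous_id.smul continuous_const)).tendsto 0
    rw [zero_smul, add_zero] at this
    exact this.mono_left nhdsWithin_le_nhds
  obtain ⟨s, hs, hs0⟩ := ((hcont.eventually (isOpen_interior.mem_nhds hx)).and
    self_mem_nhdsWithin).exists
  have hs0' : 0 < s := hs0
  have hsu : s • u ∈ Eu := Eu.smul_mem s huE
  have hdif : x + s • u - x = s • u := by abel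
  have hpos : 0 < ‖Pu (s • u)‖ := by
    rw [hPuu _ hsu]
    exact norm_pos_iff.2 (smul_ne_zero hs0'.ne' hu0)
  have hb := fun k => steps k (x + s • u) (interior_subset hs) x (interior_subset hx) (by
    rw [hdif, hPsu _ hsu, norm_zero]
    exact norm_nonneg _)
  rw [hdif] at hb
  obtain ⟨k, hk⟩ := ((tendsto_pow_atTop_atTop_of_one_lt (one_lt_two (α := ℝ))).atTop_mul_const
    hpos).eventually_gt_atTop (K * (2 * r)) |>.exists
  exact absurd (hb k) (not_le.2 hk)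

/-- the same for a hyperbolic fixed point -/
theorem saddle {φ : E → E} {A : E →L[ℝ] E} {a : E} (hφa : φ a = a) (hφ : HasStrictFDerivAt φ A a)
    (hA : Hyperbolic A) :
    (∃ C > 0, ∃ μ : ℝ, 0 < μ ∧ μ < 1 ∧ ∀ k : ℕ, ∀ v, ‖(A ^ k) v‖ ≤ C * μ ^ k * ‖v‖) ∨
    ∃ r > 0, ∀ S : Set E, S ⊆ closedBall a r → (∀ x ∈ S, φ x ∈ S) → interior S = ∅ := by
  obtain ⟨Es, Eu, hc, h1, h2, C, hC, μ, hμ0, hμ1, h3, h4⟩ := hA
  by_cases hne : Eu = ⊥
  · left
    have htop : Es = ⊤ := by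
      have := hc.sup_eq_top
      rwa [hne, sup_bot_eq] at this
    exact ⟨C, hC, μ, hμ0, hμ1, fun k v => h3 k v (by rw [htop]; trivial)⟩
  · right
    obtain ⟨N, hN⟩ : ∃ N : ℕ, C * μ ^ N < 1 / 10 := by
      have h5 : Tendsto (fun k : ℕ => C * μ ^ k) atTop (𝓝 (C * 0)) :=
        (tendsto_pow_atTop_nhds_zero_of_lt_one hμ0.le hμ1).const_mul C
      rw [mul_zero] at h5
      exact (h5.eventually_lt_const (by norm_num)).exists
    have hiter : HasStrictFDerivAt φ^[N] (A ^ N) a := hφ.iterate hφa N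
    obtain ⟨r, hr, H⟩ := saddle_core hiter hc (pow_mem h1 N) (pow_mem h2 N)
      (fun v hv => (h3 N v hv).trans (mul_le_mul_of_nonneg_right hN.le (norm_nonneg _)))
      (fun v hv => by
        have h5 := (h4 N v hv).trans (mul_le_mul_of_nonneg_right hN.le (norm_nonneg _))
        linarith) hne
    refine ⟨r, hr, fun S hS hφS => H S hS ?_⟩
    have : ∀ k : ℕ, ∀ x ∈ S, φ^[k] x ∈ S := by
      intro k
      induction k with
      | zero => exact fun x hx => hx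
      | succ k ih =>
        intro x hx
        rw [Function.iterate_succ_apply]
        exact ih _ (hφS x hx)
    exact this N

end Pool.Agent.X84.Hs
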