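import Pool.Agent.X84.Hs.Saddle

/-!
# A diffeomorphism with finite hyperbolic nonwandering set has an attracting periodic point
-/

open Set Metric Filter Topology Manifold
open scoped ContDiff

set_option autoImplicit false
set_option linter.unusedSectionVars false

noncomputable section

namespace Pool.Agent.X84.Hs

/-- The nonwandering set of `f`. -/
def NonWandering {M : Type*} [TopologicalSpace M] (f : M → M) : Set M :=
  {x | ∀ U ∈ 𝓝 x, ∃ k ≥ 1, (f^[k] '' U ∩ U).Nonempty}

variable {n : ℕ} {M : Type*} [MetricSpace M] [ChartedSpace (EuclideanSpace ℝ (Fin n)) M]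

/-- The derivative at `p` of a map `F` with `F p = p`, as an endomorphism of `T_p M = ℝⁿ`. -/
def deriv (F : M → M) (p : M) : EuclideanSpace ℝ (Fin n) →L[ℝ] EuclideanSpace ℝ (Fin n) :=
  mfderiv (𝓡 n) (𝓡 n) F p

/-- `p` is a hyperbolic periodic point of `f`. -/
def HyperbolicPeriodic (f : M → M) (p : M) : Prop :=
  ∃ k ≥ 1, f^[k] p = p ∧ Hyperbolic (deriv (n := n) f^[k] p)

variable [IsManifold (𝓡 n) 1 M]

theorem deriv_comp {F G : M → M} (hF : ContMDiff (𝓡 n) (𝓡 n) 1 F) (hG : ContMDiff (𝓡 n) (𝓡 n) 1 G)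
    {p : M} (hGp : G p = p) :
    deriv (n := n) (fun x => F (G x)) p = (deriv (n := n) F p).comp (deriv (n := n) G p) := by
  have h1 : deriv (n := n) (fun x => F (G x)) p =
      (deriv (n := n) F (G p)).comp (deriv (n := n) G p) :=
    mfderiv_comp p ((hF.mdifferentiable one_ne_zero) (G p)) ((hG.mdifferentiable one_ne_zero) p)
  rwa [hGp] at h1

theorem contMDiff_iter {F : M → M} (hF : ContMDiff (𝓡 n) (𝓡 n) 1 F) (m : ℕ) :
    ContMDiff (𝓡 n) (𝓡 n) 1 F^[m] := by
  induction m with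
  | zero => exact contMDiff_id
  | succ m ih =>
    rw [Function.iterate_succ']
    exact hF.comp ih

theorem deriv_id (p : M) : deriv (n := n) (id : M → M) p = ContinuousLinearMap.id ℝ _ :=
  mfderiv_id

theorem deriv_iter {F : M → M} (hF : ContMDiff (𝓡 n) (𝓡 n) 1 F) {p : M} (hp : F p = p) (m : ℕ) :
    deriv (n := n) F^[m] p = (deriv (n := n) F p) ^ m := by
  induction m with
  | zero =>
    rw [pow_zero]
    exact deriv_id p
  | succ m ih =>
    have h1 : F^[m + 1] = fun x => F (F^[m] x) := by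
      funext x
      exact Function.iterate_succ_apply' F m x
    rw [h1, deriv_comp hF (contMDiff_iter hF m) (Function.iterate_fixed hp m), ih, pow_succ']
    rfl

/-- the map in the chart -/
def inChart (F : M → M) (p : M) (y : EuclideanSpace ℝ (Fin n)) : EuclideanSpace ℝ (Fin n) :=
  chartAt (EuclideanSpace ℝ (Fin n)) p (F ((chartAt (EuclideanSpace ℝ (Fin n)) p).symm y))

theorem inChart_fix {F : M → M} {p : M} (hp : F p = p) :
    inChart (n := n) F p (chartAt (EuclideanSpace ℝ (Fin n)) p p) =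
      chartAt (EuclideanSpace ℝ (Fin n)) p p := by
  unfold inChart
  rw [(chartAt (EuclideanSpace ℝ (Fin n)) p).left_inv (mem_chart_source _ p), hp]

theorem strict_chart {F : M → M} (hF : ContMDiff (𝓡 n) (𝓡 n) 1 F) {p : M} (hp : F p = p) :
    HasStrictFDerivAt (inChart (n := n) F p) (deriv (n := n) F p)
      (chartAt (EuclideanSpace ℝ (Fin n)) p p) := by
  have h1 := (contMDiffAt_iff.1 (hF p)).2
  rw [hp] at h1
  have hr : range (𝓡 n) = univ := ModelWithCorners.range_eq_univ _
  rw [hr, contDiffWithinAt_univ] at h1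
  have h2 : ContDiffAt ℝ 1 (inChart (n := n) F p) (chartAt (EuclideanSpace ℝ (Fin n)) p p) := h1
  have h3 := h2.hasStrictFDerivAt one_ne_zero
  have h4 : deriv (n := n) F p = fderiv ℝ (inChart (n := n) F p)
      (chartAt (EuclideanSpace ℝ (Fin n)) p p) := by
    have h5 := ((hF.mdifferentiable one_ne_zero) p).mfderiv
    have h6 : deriv (n := n) F p = fderivWithin ℝ (writtenInExtChartAt (𝓡 n) (𝓡 n) p F)
      (range (𝓡 n)) (extChartAt (𝓡 n) p p) := h5
    rw [h6, hr, fderivWithin_univ]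
    have h7 : writtenInExtChartAt (𝓡 n) (𝓡 n) p F = inChart (n := n) F p := by
      unfold writtenInExtChartAt
      rw [hp]
      rfl
    rw [h7]
    rfl
  rw [h4]
  exact h3

variable [CompactSpace M]

/-- the orbits of a homeomorphism approach the nonwandering set -/
theorem eventually_near {f : M → M} {U : Set M} (hU : IsOpen U)
    (hΩ : NonWandering f ⊆ U) {K : ℕ} (hK : 1 ≤ K) (x : M) : ∀ᶠ m in atTop, (f^[K])^[m] x ∈ U := by
  by_contra hcon
  rw [not_eventually] at hcon
  obtain ⟨φ, hφ, hφU⟩ := extraction_of_frequently_atTop hcon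
  obtain ⟨y, ψ, hψ, hy⟩ := CompactSpace.tendsto_subseq fun j => (f^[K])^[φ j] x
  have hyU : y ∉ U := fun h => by
    obtain ⟨j, hj⟩ := (hy.eventually (hU.mem_nhds h)).exists
    exact hφU (ψ j) hj
  apply hyU
  apply hΩ
  intro W hW
  obtain ⟨N, hN⟩ := eventually_atTop.1 (hy.eventually hW)
  have h1 := hN N le_rfl
  have h2 := hN (N + 1) (Nat.le_succ N)
  have hlt : φ (ψ N) < φ (ψ (N + 1)) := hφ (hψ (Nat.lt_succ_self N))
  refine ⟨K * (φ (ψ (N + 1)) - φ (ψ N)), ?_, (f^[K])^[φ (ψ (N + 1))] x, ⟨_, h1, ?_⟩, h2⟩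
  · have : 1 ≤ φ (ψ (N + 1)) - φ (ψ N) := by omega
    exact Nat.one_le_iff_ne_zero.2 (Nat.mul_ne_zero (by omega) (by omega))
  · show f^[K * (φ (ψ (N + 1)) - φ (ψ N))] ((f^[K])^[φ (ψ N)] x) = (f^[K])^[φ (ψ (N + 1))] x
    rw [← Function.iterate_mul, ← Function.iterate_mul, ← Function.iterate_add_apply,
      ← mul_add, Nat.sub_add_cancel hlt.le]

theorem exists_sink [Nonempty M] (g : M ≃ₜ M) (hg : ContMDiff (𝓡 n) (𝓡 n) 1 g) {Ω : Set M}
    (hΩ : Ω.Finite) (hfix : ∀ p ∈ Ω, g p = p) (hhyp : ∀ p ∈ Ω, Hyperbolic (deriv (n := n) g p))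
    (hlim : ∀ U, IsOpen U → Ω ⊆ U → ∀ x, ∀ᶠ m in atTop, g^[m] x ∈ U) :
    ∃ p ∈ Ω, ∃ C > 0, ∃ μ : ℝ, 0 < μ ∧ μ < 1 ∧
      ∀ k : ℕ, ∀ v, ‖((deriv (n := n) g p) ^ k) v‖ ≤ C * μ ^ k * ‖v‖ := by
  by_contra hno
  push Not at hno
  obtain ⟨U, hU, hUd⟩ := hΩ.t2_separation
  -- the local sets
  have hloc : ∀ p ∈ Ω, ∃ V : Set M, V ∈ 𝓝 p ∧ IsClosed V ∧ V ⊆ U p ∧ (∀ x ∈ V, g x ∈ U p) ∧
      interior {x | ∀ k : ℕ, g^[k] x ∈ V} = ∅ := by
    intro p hp
    set e := chartAt (EuclideanSpace ℝ (Fin n)) p with he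
    have hpe : p ∈ e.source := mem_chart_source _ p
    have hsad := (saddle (inChart_fix (hfix p hp)) (strict_chart hg (hfix p hp))
      (hhyp p hp)).resolve_left (by
        rintro ⟨C, hC, μ, hμ0, hμ1, H⟩
        obtain ⟨k, v, hkv⟩ := hno p hp C hC μ hμ0 hμ1
        exact absurd (H k v) (not_le.2 hkv))
    obtain ⟨r₀, hr₀, H⟩ := hsad
    have hW : U p ∩ g ⁻¹' U p ∈ 𝓝 p := by
      refine inter_mem ((hU p).2.mem_nhds (hU p).1) (g.continuous.continuousAt.preimage_mem_nhds ?_)
      rw [hfix p hp]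
      exact (hU p).2.mem_nhds (hU p).1
    have hW' : e.target ∩ e.symm ⁻¹' (U p ∩ g ⁻¹' U p) ∈ 𝓝 (e p) := by
      refine inter_mem (e.open_target.mem_nhds (e.map_source hpe)) ?_
      refine (e.continuousAt_symm (e.map_source hpe)).preimage_mem_nhds ?_
      rwa [e.left_inv hpe]
    obtain ⟨r₁, hr₁, hr₁s⟩ := Metric.nhds_basis_closedBall.mem_iff.1 hW'
    set r := min r₀ r₁ with hr
    have hrp : 0 < r := lt_min hr₀ hr₁
    have hst : closedBall (e p) r ⊆ e.target :=
      (closedBall_subset_closedBall (min_le_right _ _)).trans (hr₁s.trans inter_subset_left)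
    set V := e.symm '' closedBall (e p) r with hV
    have hVs : V ⊆ e.source := by
      rintro _ ⟨y, hy, rfl⟩
      exact e.map_target (hst hy)
    have hVW : V ⊆ U p ∩ g ⁻¹' U p := by
      rintro _ ⟨y, hy, rfl⟩
      exact (hr₁s (closedBall_subset_closedBall (min_le_right _ _) hy)).2
    refine ⟨V, ?_, ?_, fun x hx => (hVW hx).1, fun x hx => (hVW hx).2, ?_⟩
    · have h1 : e.symm '' ball (e p) r ∈ 𝓝 p :=
        (e.isOpen_image_symm_of_subset_target isOpen_ball
          (ball_subset_closedBall.trans hst)).mem_nhds ⟨e p, mem_ball_self hrp, e.left_inv hpe⟩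
      exact mem_of_superset h1 (image_mono ball_subset_closedBall)
    · exact ((isCompact_closedBall _ _).image_of_continuousOn
        (e.symm.continuousOn.mono hst)).isClosed
    · by_contra hne
      obtain ⟨x, hx⟩ := nonempty_iff_ne_empty.2 hne
      set L := {x | ∀ k : ℕ, g^[k] x ∈ V} with hL
      have hLV : L ⊆ V := fun x hx => hx 0
      have hLg : ∀ x ∈ L, g x ∈ L := fun x hx k => by
        have := hx (k + 1)
        rwa [Function.iterate_succ_apply] at this
      have h1 := H (e '' L) (by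
        rintro _ ⟨x, hx, rfl⟩
        obtain ⟨y, hy, hyx⟩ := hLV hx
        rw [← hyx, e.right_inv (hst hy)]
        exact closedBall_subset_closedBall (min_le_left _ _) hy) (by
        rintro _ ⟨x, hx, rfl⟩
        refine ⟨g x, hLg x hx, ?_⟩
        unfold inChart
        rw [e.left_inv (hVs (hLV hx))])
      have h2 : IsOpen (e '' interior L) :=
        e.isOpen_image_of_subset_source isOpen_interior (interior_subset.trans (hLV.trans hVs))
      have h3 : e x ∈ interior (e '' L) :=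
        (interior_maximal (image_mono interior_subset) h2) ⟨x, hx, rfl⟩
      rw [h1] at h3
      exact h3
  choose! V hVn hVc hVU hVg hVi using hloc
  -- every orbit enters one of the local sets for ever
  have hcov : ⋃ (i : Ω × ℕ), {x | ∀ k : ℕ, g^[k] (g^[i.2] x) ∈ V i.1} = univ := by
    rw [eq_univ_iff_forall]
    intro x
    have hO : IsOpen (⋃ p ∈ Ω, interior (V p)) := isOpen_biUnion fun p _ => isOpen_interior
    have hΩO : Ω ⊆ ⋃ p ∈ Ω, interior (V p) := fun p hp =>
      mem_biUnion hp (mem_interior_iff_mem_nhds.2 (hVn p hp))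
    obtain ⟨N, hN⟩ := eventually_atTop.1 (hlim _ hO hΩO x)
    obtain ⟨p, hp, hpN⟩ := mem_iUnion₂.1 (hN N le_rfl)
    refine mem_iUnion.2 ⟨(⟨p, hp⟩, N), fun k => ?_⟩
    show g^[k] (g^[N] x) ∈ V p
    induction k with
    | zero => exact interior_subset hpN
    | succ k ih =>
      have h1 : g^[k + 1] (g^[N] x) ∈ U p := by
        rw [Function.iterate_succ_apply']
        exact hVg p hp _ ih
      have h2 := hN (k + 1 + N) (by omega)
      rw [Function.iterate_add_apply] at h2
      obtain ⟨p', hp', hp'N⟩ := mem_iUnion₂.1 h2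
      have h3 := interior_subset hp'N
      have h4 : p = p' := by
        by_contra hne
        exact Set.disjoint_left.1 (hUd hp hp' hne) h1 (hVU p' hp' h3)
      rw [h4]
      exact h3
  have : Countable Ω := hΩ.countable.to_subtype
  obtain ⟨⟨⟨p, hp⟩, N⟩, x, hx⟩ := nonempty_interior_of_iUnion_of_closed (fun i : Ω × ℕ => by
    have : {x | ∀ k : ℕ, g^[k] (g^[i.2] x) ∈ V i.1} = ⋂ k : ℕ, {x | g^[k] (g^[i.2] x) ∈ V i.1} := by
      ext x
      simp
    rw [this]
    exact isClosed_iInter fun k => (hVc i.1 i.1.2).preimage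
      ((g.continuous.iterate k).comp (g.continuous.iterate i.2))) hcov
  have hgN : IsOpenMap g^[N] := by
    have : ∀ k, IsOpenMap g^[k] := by
      intro k
      induction k with
      | zero => exact IsOpenMap.id
      | succ k ih =>
        rw [Function.iterate_succ']
        exact g.isOpenMap.comp ih
    exact this N
  have h1 : g^[N] x ∈ interior {x | ∀ k : ℕ, g^[k] x ∈ V p} := by
    refine (interior_maximal ?_ (hgN _ isOpen_interior)) ⟨x, hx, rfl⟩
    rintro _ ⟨y, hy, rfl⟩
    have h2 : y ∈ {x | ∀ k : ℕ, g^[k] (g^[N] x) ∈ V p} := interior_subset hy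
    exact h2
  rw [hVi p hp] at h1
  exact h1

end Pool.Agent.X84.Hs
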